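import Pool.Agent.Helper85.KL.R5

set_option autoImplicit false

/-!
Local lemma: the integrand of the tables is the integrand of the certificate.
-/

namespace KR

open Finset hiding dens
open KF KB

section
variable {V : Type} (E : V → V → V → Bool) (κ : V → Fin 6) (φ : Fin 5 → V)

theorem b0 : (KL.cm E κ φ).testBit 0 = E (φ 0) (φ 1) (φ 2) := by
  rw [KL.cm_bit E κ φ 0 (by norm_num)]; rfl
theorem b1 : (KL.cm E κ φ).testBit 1 = E (φ 0) (φ 1) (φ 3) := by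
  rw [KL.cm_bit E κ φ 1 (by norm_num)]; rfl
theorem b2 : (KL.cm E κ φ).testBit 2 = E (φ 0) (φ 2) (φ 3) := by
  rw [KL.cm_bit E κ φ 2 (by norm_num)]; rfl
theorem b3 : (KL.cm E κ φ).testBit 3 = E (φ 1) (φ 2) (φ 3) := by
  rw [KL.cm_bit E κ φ 3 (by norm_num)]; rfl
theorem b4 : (KL.cm E κ φ).testBit 4 = E (φ 0) (φ 1) (φ 4) := by
  rw [KL.cm_bit E κ φ 4 (by norm_num)]; rfl
theorem b5 : (KL.cm E κ φ).testBit 5 = E (φ 0) (φ 2) (φ 4) := by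
  rw [KL.cm_bit E κ φ 5 (by norm_num)]; rfl
theorem b6 : (KL.cm E κ φ).testBit 6 = E (φ 1) (φ 2) (φ 4) := by
  rw [KL.cm_bit E κ φ 6 (by norm_num)]; rfl
theorem bs7 : (KL.cm E κ φ).testBit 7 = E (φ 0) (φ 3) (φ 4) := by
  rw [KL.cm_bit E κ φ 7 (by norm_num)]; rfl

theorem k0 : KL.col (KL.cm E κ φ) 0 = (κ (φ 0)).1 := KL.cm_col E κ φ 0
theorem k1 : KL.col (KL.cm E κ φ) 1 = (κ (φ 1)).1 := KL.cm_col E κ φ 1
theorem k2 : KL.col (KL.cm E κ φ) 2 = (κ (φ 2)).1 := KL.cm_col E κ φ 2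
theorem k3 : KL.col (KL.cm E κ φ) 3 = (κ (φ 3)).1 := KL.cm_col E κ φ 3
theorem k4 : KL.col (KL.cm E κ φ) 4 = (κ (φ 4)).1 := KL.cm_col E κ φ 4

theorem fl3_eq : KL.fl3 (KL.cm E κ φ) = F3 E κ (φ 0) (φ 1) (φ 2) (φ 3) := by
  have h1 := Nat.toNat_testBit (KL.cm E κ φ) 1
  have h2 := Nat.toNat_testBit (KL.cm E κ φ) 2
  have h3 := Nat.toNat_testBit (KL.cm E κ φ) 3
  rw [b1] at h1
  rw [b2] at h2
  rw [b3] at h3
  unfold KL.fl3 F3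
  rw [k3]
  norm_num at h1 h2 h3
  omega

theorem fl4_eq : KL.fl4 (KL.cm E κ φ) = F3 E κ (φ 0) (φ 1) (φ 2) (φ 4) := by
  have h1 := Nat.toNat_testBit (KL.cm E κ φ) 4
  have h2 := Nat.toNat_testBit (KL.cm E κ φ) 5
  have h3 := Nat.toNat_testBit (KL.cm E κ φ) 6
  rw [b4] at h1
  rw [b5] at h2
  rw [b6] at h3
  unfold KL.fl4 F3
  rw [k4]
  norm_num at h1 h2 h3
  omega

theorem mod16 : KL.cm E κ φ % 16 = (E (φ 0) (φ 1) (φ 2)).toNat + 2 * (E (φ 0) (φ 1) (φ 3)).toNat +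
    4 * (E (φ 0) (φ 2) (φ 3)).toNat + 8 * (E (φ 1) (φ 2) (φ 3)).toNat := by
  have h0 := Nat.toNat_testBit (KL.cm E κ φ) 0
  have h1 := Nat.toNat_testBit (KL.cm E κ φ) 1
  have h2 := Nat.toNat_testBit (KL.cm E κ φ) 2
  have h3 := Nat.toNat_testBit (KL.cm E κ φ) 3
  rw [b0] at h0
  rw [b1] at h1
  rw [b2] at h2
  rw [b3] at h3
  norm_num at h0 h1 h2 h3
  omega

theorem mis_eq (x y z : V) : (KL.mis3 (κ x) (κ y) (κ z) (E x y z)).toNat =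
    ms3 (R3 E κ x y z) := by
  obtain ⟨h1, h2, h3, h4⟩ := R3_dec E κ x y z
  unfold ms3 KL.mis3
  rw [h1, h2, h3, h4, dn_D6, KL.isB_D6]
  cases D6 (κ x) (κ y) (κ z) <;> cases E x y z <;> simp

theorem beq_inn : ∀ i j k : Fin 6, (Nat.beq i.1 j.1 && Nat.beq j.1 k.1) = inn i j k := by
  decide

theorem bad_eq (x y z : V) : (KL.bad3 (κ x) (κ y) (κ z) (E x y z)).toNat =
    bd3 (R3 E κ x y z) := by
  obtain ⟨h1, h2, h3, h4⟩ := R3_dec E κ x y z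
  unfold bd3 KL.bad3
  rw [h1, h2, h3, h4, dn_D6, KL.isB_D6, nn_inn, beq_inn]
  cases D6 (κ x) (κ y) (κ z) <;> cases inn (κ x) (κ y) (κ z) <;> cases E x y z <;> simp

theorem sr_R3 (x y z : V) : sr (R3 E κ x y z) = KL.tc (κ x) (κ y) (κ z) := by
  obtain ⟨h1, h2, h3, h4⟩ := R3_dec E κ x y z
  unfold sr
  rw [h1, h2, h3]

theorem ty3_eq : KL.ty3 (KL.cm E κ φ) = sr (R3 E κ (φ 0) (φ 1) (φ 2)) := by
  unfold KL.ty3
  rw [k0, k1, k2, sr_R3]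

theorem tau3_eq : KL.tau3 (KL.cm E κ φ) = tr (R3 E κ (φ 0) (φ 1) (φ 2)) := by
  obtain ⟨h1, h2, h3, h4⟩ := R3_dec E κ (φ 0) (φ 1) (φ 2)
  unfold KL.tau3 tr
  rw [ty3_eq, b0, h4]

theorem F1_dec (x y z : V) : F1 E κ x y z / 2 % 8 = κ y ∧ F1 E κ x y z / 16 = κ z ∧
    F1 E κ x y z % 2 = (E x y z).toNat := by
  unfold F1
  have h1 := tn_lt (E x y z)
  have h2 := (κ y).2
  have h3 := (κ z).2
  refine ⟨?_, ?_, ?_⟩ <;> omega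

theorem tn_dec (b : Bool) : decide (b.toNat = 1) = b := by cases b <;> rfl

theorem v1_F1 (x y z : V) : v1 (F1 E κ x y z) = KL.wr3 0 (κ y) (κ z) (E x y z) := by
  obtain ⟨h1, h2, h3⟩ := F1_dec E κ x y z
  unfold v1
  rw [h1, h2, h3, tn_dec]
  have g1 := (κ y).2
  have g2 := (κ z).2
  simp [g1, g2]

theorem i1_F1 (C : KL.CT) (x y z : V) : i1 C (F1 E κ x y z) = C.f1 (κ y) (κ z) (E x y z) := by
  obtain ⟨h1, h2, h3⟩ := F1_dec E κ x y z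
  unfold i1
  rw [h1, h2, h3, tn_dec]

theorem g3_eq (C : KL.CT) : C.g3 (KL.cm E κ φ) =
    qS3 C (R3 E κ (φ 0) (φ 1) (φ 2)) (F3 E κ (φ 0) (φ 1) (φ 2) (φ 3))
      (F3 E κ (φ 0) (φ 1) (φ 2) (φ 4)) := by
  unfold KL.CT.g3 qS3
  rw [ty3_eq, tau3_eq, fl3_eq, fl4_eq]

theorem g1_eq (C : KL.CT) : C.g1 (KL.cm E κ φ) =
    qS1 C (κ (φ 0)) (F1 E κ (φ 0) (φ 1) (φ 2)) (F1 E κ (φ 0) (φ 3) (φ 4)) := by
  unfold KL.CT.g1 qS1
  rw [k0, k1, k2, k3, k4, b0, bs7, v1_F1, v1_F1, i1_F1, i1_F1]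
  by_cases h : ((κ (φ 0)).1 : ℕ) = 0
  · rw [h]
  · rw [if_neg (fun g => h g.1), if_neg (fun g => h g.1)]

theorem gD_eq (C : KL.CT) : C.gD (KL.cm E κ φ) =
    (if sr (R3 E κ (φ 0) (φ 1) (φ 2)) < 6 then C.dm (tr (R3 E κ (φ 0) (φ 1) (φ 2))) else 0) *
      (7 * ((E (φ 0) (φ 3) (φ 4)).toNat : ℤ) - 2) +
    (if sr (R3 E κ (φ 0) (φ 1) (φ 2)) < 6 then
      (C.nd (tr (R3 E κ (φ 0) (φ 1) (φ 2))) : ℤ) else 0) := by
  unfold KL.CT.gD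
  rw [ty3_eq, tau3_eq, bs7]
  split
  · rfl
  · rw [zero_mul, add_zero]

theorem gB_eq (C : KL.CT) : C.gB (KL.cm E κ φ) =
    (ofCT C).Bf (R3 E κ (φ 0) (φ 1) (φ 2)) (F1 E κ (φ 0) (φ 3) (φ 4)) := by
  obtain ⟨h1, h2, h3⟩ := F1_dec E κ (φ 0) (φ 3) (φ 4)
  change _ = (if sr (R3 E κ (φ 0) (φ 1) (φ 2)) < 6 then
    (C.bc (tr (R3 E κ (φ 0) (φ 1) (φ 2))) : ℤ) - C.pb (tr (R3 E κ (φ 0) (φ 1) (φ 2)))
      (F1 E κ (φ 0) (φ 3) (φ 4) / 2 % 8) (F1 E κ (φ 0) (φ 3) (φ 4) / 16) *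
      ((F1 E κ (φ 0) (φ 3) (φ 4) % 2 : ℕ) : ℤ) else 0)
  unfold KL.CT.gB
  rw [ty3_eq, tau3_eq, bs7, k3, k4, h1, h2, h3]

theorem gK_eq (C : KL.CT) : C.gK (KL.cm E κ φ) =
    (if sr (R3 E κ (φ 0) (φ 1) (φ 2)) < 6 then (C.km (tr (R3 E κ (φ 0) (φ 1) (φ 2))) : ℤ) else 0) *
      ((C.A : ℤ) - C.B * (ms3 (R3 E κ (φ 0) (φ 3) (φ 4)) : ℤ)) := by
  unfold KL.CT.gK
  rw [ty3_eq, tau3_eq, bs7, k0, k3, k4, mis_eq]
  split
  · rfl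
  · rw [zero_mul]

theorem R4_dec (x y z u : V) : R4 E κ x y z u / 16 % 512 * 2 + R4 E κ x y z u % 2 =
    R3 E κ x y z ∧ R4 E κ x y z u / 8192 = κ u ∧ R4 E κ x y z u % 16 = (E x y z).toNat +
    2 * (E x y u).toNat + 4 * (E x z u).toNat + 8 * (E y z u).toNat := by
  have h1 := tn_lt (E x y z)
  have h2 := tn_lt (E x y u)
  have h3 := tn_lt (E x z u)
  have h4 := tn_lt (E y z u)
  have g1 := (κ x).2
  have g2 := (κ y).2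
  have g3 := (κ z).2
  have g4 := (κ u).2
  unfold R4 R3
  refine ⟨?_, ?_, ?_⟩ <;> omega

theorem gI_eq (C : KL.CT) : C.gI (KL.cm E κ φ) =
    (ofCT C).I (R4 E κ (φ 0) (φ 1) (φ 2) (φ 3)) (κ (φ 4)) +
      (ofCT C).NI (R4 E κ (φ 0) (φ 1) (φ 2) (φ 3)) := by
  obtain ⟨h1, h2, h3⟩ := R4_dec E κ (φ 0) (φ 1) (φ 2) (φ 3)
  change _ = (if sr (R4 E κ (φ 0) (φ 1) (φ 2) (φ 3) / 16 % 512 * 2 +
    R4 E κ (φ 0) (φ 1) (φ 2) (φ 3) % 2) < 6 ∧ R4 E κ (φ 0) (φ 1) (φ 2) (φ 3) / 8192 < 6 then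
    6 * imv C (sr (R4 E κ (φ 0) (φ 1) (φ 2) (φ 3) / 16 % 512 * 2 +
      R4 E κ (φ 0) (φ 1) (φ 2) (φ 3) % 2)) (R4 E κ (φ 0) (φ 1) (φ 2) (φ 3) / 8192)
      (R4 E κ (φ 0) (φ 1) (φ 2) (φ 3) % 16) (κ (φ 4)) else 0) +
    (if sr (R4 E κ (φ 0) (φ 1) (φ 2) (φ 3) / 16 % 512 * 2 +
    R4 E κ (φ 0) (φ 1) (φ 2) (φ 3) % 2) < 6 ∧ R4 E κ (φ 0) (φ 1) (φ 2) (φ 3) / 8192 < 6 then
    (niv C (sr (R4 E κ (φ 0) (φ 1) (φ 2) (φ 3) / 16 % 512 * 2 +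
      R4 E κ (φ 0) (φ 1) (φ 2) (φ 3) % 2)) (R4 E κ (φ 0) (φ 1) (φ 2) (φ 3) / 8192)
      (R4 E κ (φ 0) (φ 1) (φ 2) (φ 3) % 16) : ℤ) else 0)
  rw [h1, h2, h3]
  unfold KL.CT.gI KL.CT.im KL.CT.ni imv niv
  rw [ty3_eq, k3, k4, mod16]
  by_cases h : sr (R3 E κ (φ 0) (φ 1) (φ 2)) < 6
  · rw [if_pos h, if_pos ⟨h, (κ (φ 3)).2⟩, if_pos ⟨h, (κ (φ 3)).2⟩]
  · rw [if_neg h, if_neg (fun g => h g.1), if_neg (fun g => h g.1), add_zero]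

/-- The two integrands agree. -/
theorem G_eq (C : KL.CT) : C.G (KL.cm E κ φ) = (ofCT C).h (cm E κ φ) := by
  unfold KL.CT.G Cert.h KL.CT.obj
  rw [g3_eq, g1_eq, gD_eq, gB_eq, gK_eq, gI_eq, k0, k1, k2, b0, mis_eq, bad_eq, cm_r3, cm_fA3, cm_fB3,
    cm_fA1, cm_034, cm_c0, cm_fB1, cm_r4, cm_c4, cm_b7]
  change _ = (C.P : ℤ) * _ - (C.M : ℤ) * _ - qS3 C _ _ _ - qS1 C _ _ _ -
    ((if sr (R3 E κ (φ 0) (φ 1) (φ 2)) < 6 then C.dm (tr (R3 E κ (φ 0) (φ 1) (φ 2))) else 0) *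
      (7 * ((E (φ 0) (φ 3) (φ 4)).toNat : ℤ) - 2) +
    (if sr (R3 E κ (φ 0) (φ 1) (φ 2)) < 6 then
      (C.nd (tr (R3 E κ (φ 0) (φ 1) (φ 2))) : ℤ) else 0)) - _ -
    (if sr (R3 E κ (φ 0) (φ 1) (φ 2)) < 6 then (C.km (tr (R3 E κ (φ 0) (φ 1) (φ 2))) : ℤ) else 0) *
      ((C.A : ℤ) - C.B * (ms3 (R3 E κ (φ 0) (φ 3) (φ 4)) : ℤ)) - _
  ring

end

section
variable {V : Type} [Fintype V] (E : V → V → V → Bool) (κ : V → Fin 6) {w : V → ℝ}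

/-- The block inequalities. -/
def HB (C : KL.CT) (E : V → V → V → Bool) (w : V → ℝ) (κ : V → Fin 6) : Prop :=
  ∀ t < 12, ∀ u, 0 < w u →
    ∑ y, ∑ z, w y * w z * ((C.pb t (κ y) (κ z) : ℝ) * b2r (E u y z)) ≤ C.bc t

theorem hb_of (h1 : ∑ v, w v = 1) {C : KL.CT} (h : HB C E w κ) (r : ℕ) (u : V) (hu : 0 < w u) :
    0 ≤ ∑ y, ∑ z, w y * w z * ((ofCT C).Bf r (F1 E κ u y z) : ℝ) := by
  by_cases hr : sr r < 6
  · have h2 := h (tr r) (by unfold tr; omega) u hu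
    have h3 : ∀ y z, w y * w z * ((ofCT C).Bf r (F1 E κ u y z) : ℝ) =
        w y * w z * (C.bc (tr r) : ℝ) -
          w y * w z * ((C.pb (tr r) (κ y) (κ z) : ℝ) * b2r (E u y z)) := by
      intro y z
      obtain ⟨g1, g2, g3⟩ := F1_dec E κ u y z
      change _ * (((if sr r < 6 then (C.bc (tr r) : ℤ) -
        C.pb (tr r) (F1 E κ u y z / 2 % 8) (F1 E κ u y z / 16) *
        ((F1 E κ u y z % 2 : ℕ) : ℤ) else 0 : ℤ)) : ℝ) = _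
      rw [if_pos hr, g1, g2, g3]
      push_cast
      cases E u y z <;> simp [b2r] <;> ring
    simp only [h3, sum_sub_distrib]
    have h4 : ∑ y, ∑ z, w y * w z * (C.bc (tr r) : ℝ) = C.bc (tr r) := by
      simp only [← sum_mul, ← mul_sum, h1, mul_one, one_mul]
    rw [h4]
    linarith
  · refine le_of_eq ?_
    symm
    refine sum_eq_zero fun y _ => sum_eq_zero fun z _ => ?_
    change _ * (((if sr r < 6 then _ else 0 : ℤ)) : ℝ) = _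
    rw [if_neg hr]
    simp

/-- No block inequalities. -/
theorem hb_triv (hw : ∀ v, 0 ≤ w v) (h1 : ∑ v, w v = 1) {C : KL.CT}
    (h : ∀ t < 12, ∀ c < 6, ∀ d < 6, C.pb t c d ≤ C.bc t) (κ : V → Fin 6) : HB C E w κ := by
  intro t ht u _
  have h4 : ∑ y, ∑ z, w y * w z * (C.bc t : ℝ) = C.bc t := by
    simp only [← sum_mul, ← mul_sum, h1, mul_one, one_mul]
  rw [← h4]
  refine sum_le_sum fun y _ => sum_le_sum fun z _ => ?_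
  refine mul_le_mul_of_nonneg_left ?_ (mul_nonneg (hw y) (hw z))
  have g1 : (C.pb t (κ y) (κ z) : ℝ) ≤ C.bc t := by
    exact_mod_cast h t ht _ (κ y).2 _ (κ z).2
  have g2 : (0 : ℝ) ≤ C.pb t (κ y) (κ z) := Nat.cast_nonneg _
  have g3 := b2r_nonneg (E u y z)
  have g4 := b2r_le_one (E u y z)
  nlinarith

/-- One colouring. -/
theorem ct_le (hw : ∀ v, 0 ≤ w v) (h1 : ∑ v, w v = 1) {C : KL.CT} {DN DD TN TD : ℕ}
    (hC : Ok C DN DD TN TD)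
    (ht : ∑ j : Fin 6, (xs w κ j - 1 / 6) ^ 2 ≤ ((TN : ℝ) / TD) ^ 2)
    (hm : ∀ v, 0 < w v → (C.B : ℝ) * mm E w κ v ≤ C.A)
    (hd : ∀ v, 0 < w v → |deg E w v - 2 / 7| ≤ (DN : ℝ) / DD) (hB : HB C E w κ) :
    Ev 5 w (fun φ => (C.G (KL.cm E κ φ) : ℝ)) ≤ (C.P : ℝ) * mu E w κ - C.M * bet E w κ := by
  have h := one_le E κ hw h1 (ofCT C) (ofCT_good hC) (by positivity) ht
    (fun v hv => by
      change (((C.B : ℕ) : ℤ) : ℝ) * _ ≤ (((C.A : ℕ) : ℤ) : ℝ)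
      rw [Int.cast_natCast, Int.cast_natCast]
      exact hm v hv) hd (hb_of E κ h1 hB)
  have e : Ev 5 w (fun φ => ((ofCT C).h (cm E κ φ) : ℝ)) =
      Ev 5 w (fun φ => (C.G (KL.cm E κ φ) : ℝ)) :=
    Ev_congr 5 w fun φ => by rw [G_eq]
  rw [e] at h
  refine h.trans (le_of_eq ?_)
  change (((C.P : ℕ) : ℤ) : ℝ) * _ - (((C.M : ℕ) : ℤ) : ℝ) * _ = _
  rw [Int.cast_natCast, Int.cast_natCast]

end

section
variable {a : Fin 6 → Fin 6}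

/-- An injective map as a permutation. -/
noncomputable def pm (hi : Function.Injective a) : Equiv.Perm (Fin 6) :=
  Equiv.ofBijective a (Finite.injective_iff_bijective.1 hi)

theorem pm_mem (hi : Function.Injective a) (ha : ∀ i j k, D6 (a i) (a j) (a k) = D6 i j k) :
    pm hi ∈ AutD := by
  unfold AutD
  rw [mem_filter]
  exact ⟨mem_univ _, fun i j k => ha i j k⟩

end

section
variable {V : Type} [Fintype V] (E : V → V → V → Bool) (κ : V → Fin 6) {w : V → ℝ}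
variable {a : Fin 6 → Fin 6}

/-- The colouring composed with an automorphism. -/
theorem ct_aut (hw : ∀ v, 0 ≤ w v) (h1 : ∑ v, w v = 1) {C : KL.CT} {DN DD TN TD : ℕ}
    (hC : Ok C DN DD TN TD)
    (ht : ∑ j : Fin 6, (xs w κ j - 1 / 6) ^ 2 ≤ ((TN : ℝ) / TD) ^ 2)
    (hm : ∀ v, 0 < w v → (C.B : ℝ) * mm E w κ v ≤ C.A)
    (hd : ∀ v, 0 < w v → |deg E w v - 2 / 7| ≤ (DN : ℝ) / DD)
    (hB : HB C E w (fun v => a (κ v)))
    (hi : Function.Injective a) (ha : ∀ i j k, D6 (a i) (a j) (a k) = D6 i j k) :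
    Ev 5 w (fun φ => (C.G (KL.cm E (fun v => a (κ v)) φ) : ℝ)) ≤
      (C.P : ℝ) * mu E w κ - C.M * bet E w κ := by
  have hp := pm_mem hi ha
  have h := ct_le E (fun v => (pm hi) (κ v)) hw h1 hC
    (by rw [sq_aut κ (a := pm hi)]; exact ht)
    (fun v hv => by rw [mm_aut E κ hp]; exact hm v hv) hd hB
  rw [mu_aut E κ hp, bet_aut E κ hp] at h
  exact h

/-- All colourings. -/
theorem all (hw : ∀ v, 0 ≤ w v) (h1 : ∑ v, w v = 1) {C : KL.CT} {DN DD TN TD : ℕ}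
    (hC : Ok C DN DD TN TD)
    (ht : ∑ j : Fin 6, (xs w κ j - 1 / 6) ^ 2 ≤ ((TN : ℝ) / TD) ^ 2)
    (hm : ∀ v, 0 < w v → (C.B : ℝ) * mm E w κ v ≤ C.A)
    (hd : ∀ v, 0 < w v → |deg E w v - 2 / 7| ≤ (DN : ℝ) / DD)
    {AL : List (Fin 6 → Fin 6)} (h0 : AL ≠ [])
    (hB : ∀ a ∈ AL, HB C E w (fun v => a (κ v)))
    (hi : ∀ a ∈ AL, Function.Injective a)
    (ha : ∀ a ∈ AL, ∀ i j k, D6 (a i) (a j) (a k) = D6 i j k)
    (hc : 0 ≤ (AL.map fun a => Ev 5 w (fun φ => (C.G (KL.cm E (fun v => a (κ v)) φ) : ℝ))).sum) :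
    0 ≤ (C.P : ℝ) * mu E w κ - C.M * bet E w κ := by
  set X := (C.P : ℝ) * mu E w κ - C.M * bet E w κ with hX
  have key : ∀ l : List (Fin 6 → Fin 6), (∀ a ∈ l, a ∈ AL) →
      (l.map fun a => Ev 5 w (fun φ => (C.G (KL.cm E (fun v => a (κ v)) φ) : ℝ))).sum ≤
        (l.length : ℝ) * X := by
    intro l
    induction l with
    | nil => intro _; simp
    | cons a l ih =>
      intro hl
      rw [List.map_cons, List.sum_cons, List.length_cons]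
      have g1 := ct_aut E κ hw h1 hC ht hm hd (hB a (hl a (by simp))) (hi a (hl a (by simp)))
        (ha a (hl a (by simp)))
      have g2 := ih (fun b hb => hl b (by simp [hb]))
      push_cast
      linarith
  have h2 := hc.trans (key AL fun a h => h)
  have h3 : 0 < (AL.length : ℝ) := by
    exact_mod_cast List.length_pos_iff.2 h0
  exact (mul_nonneg_iff_of_pos_left h3).1 h2

end

end KR
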