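import Pool.Agent.Helper85.KL.R9
import Pool.Agent.Helper85.KL.R6
import Pool.Agent.Helper25.K4.Dfs

set_option autoImplicit false

/-!
Local lemma: the numerical form.
-/

namespace KR

open Finset hiding dens
open KF KB

/-- The numerical form of a certificate (with block inequalities as a hypothesis). -/
theorem locL_gen {C : KL.CT} {DN DD TN TD : ℕ} {U : ℝ} (hC : Ok C DN DD TN TD) (hB : 0 < C.B)
    (hM : 0 < C.M) {AL : List (Fin 6 → Fin 6)} (h0 : AL ≠ [])
    (hi : ∀ a ∈ AL, Function.Injective a)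
    (ha : ∀ a ∈ AL, ∀ i j k, D6 (a i) (a j) (a k) = D6 i j k)
    (hb : ∀ (V : Type) (_ : Fintype V) (E : V → V → V → Bool) (w : V → ℝ) (κ : V → Fin 6),
      K4m E → Wt w → ∑ j, (xs w κ j - 1 / 6) ^ 2 ≤ ((TN : ℝ) / TD) ^ 2 → mu E w κ ≤ U →
      HB C E w κ)
    (hf : ∀ (V : Type) (_ : Fintype V) (E : V → V → V → Bool) (w : V → ℝ) (κ : V → Fin 6),
      K4m E → Wt w → 0 ≤ (AL.map fun a =>
        Ev 5 w (fun φ => (C.G (KL.cm E (fun v => a (κ v)) φ) : ℝ))).sum) :
    KS.LocL ((TN : ℝ) / TD) ((DN : ℝ) / DD) ((C.A : ℝ) / C.B) U ((C.P : ℝ) / C.M) := by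
  intro V iV E w κ hE hw ht hd hm hu
  have hB' : (0 : ℝ) < C.B := by exact_mod_cast hB
  have hM' : (0 : ℝ) < C.M := by exact_mod_cast hM
  have h := all E κ hw.nn hw.one hC ht
    (fun v hv => by
      have := hm v hv
      rw [le_div_iff₀ hB'] at this
      linarith) hd h0
    (fun a hA => by
      have hp := pm_mem (hi a hA) (ha a hA)
      refine hb V iV E w (fun v => a (κ v)) hE hw ?_ ?_
      · have e := sq_aut κ (a := pm (hi a hA)) (w := w)
        have e2 : (fun y => (pm (hi a hA)) (κ y)) = fun y => a (κ y) := rfl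
        rw [e2] at e
        rw [e]
        exact ht
      · have e := mu_aut E κ hp (w := w)
        have e2 : (fun y => (pm (hi a hA)) (κ y)) = fun y => a (κ y) := rfl
        rw [e2] at e
        rw [e]
        exact hu) hi ha
    (hf V iV E w κ hE hw)
  rw [div_mul_eq_mul_div, le_div_iff₀ hM']
  linarith

/-- The numerical form of a certificate without block inequalities. -/
theorem locL {C : KL.CT} {DN DD TN TD : ℕ} {U : ℝ} (hC : Ok C DN DD TN TD) (hB : 0 < C.B)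
    (hM : 0 < C.M) (hb : ∀ t < 12, ∀ c < 6, ∀ d < 6, C.pb t c d ≤ C.bc t)
    {AL : List (Fin 6 → Fin 6)} (h0 : AL ≠ []) (hi : ∀ a ∈ AL, Function.Injective a)
    (ha : ∀ a ∈ AL, ∀ i j k, D6 (a i) (a j) (a k) = D6 i j k)
    (hf : ∀ (V : Type) (_ : Fintype V) (E : V → V → V → Bool) (w : V → ℝ) (κ : V → Fin 6),
      K4m E → Wt w → 0 ≤ (AL.map fun a =>
        Ev 5 w (fun φ => (C.G (KL.cm E (fun v => a (κ v)) φ) : ℝ))).sum) :
    KS.LocL ((TN : ℝ) / TD) ((DN : ℝ) / DD) ((C.A : ℝ) / C.B) U ((C.P : ℝ) / C.M) :=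
  locL_gen hC hB hM h0 hi ha
    (fun _ _ E _ κ _ hw _ _ => hb_triv E hw.nn hw.one hb κ) hf

end KR
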