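import Pool.Agent.Helper85.KB.B1

set_option autoImplicit false

/-!
Local lemma: coloured samples of five vertices as natural numbers.
-/

namespace KR

open Finset hiding dens
open KF KB

/-- Assemble ten bits and five colours. -/
def pk (b0 b1 b2 b3 b4 b5 b6 b7 b8 b9 : ℕ) (c0 c1 c2 c3 c4 : ℕ) : ℕ :=
  b0 + 2 * b1 + 4 * b2 + 8 * b3 + 16 * b4 + 32 * b5 + 64 * b6 + 128 * b7 + 256 * b8 + 512 * b9 +
    1024 * c0 + 8192 * c1 + 65536 * c2 + 524288 * c3 + 4194304 * c4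

/-- Code of the first three vertices. -/
def r3 (N : ℕ) : ℕ := N / 1024 % 512 * 2 + N % 2
/-- Flag of the vertex 3 over the first three. -/
def fA3 (N : ℕ) : ℕ := N / 524288 % 8 * 8 + N / 2 % 8
/-- Flag of the vertex 4 over the first three. -/
def fB3 (N : ℕ) : ℕ := N / 4194304 % 8 * 8 + N / 16 % 8
/-- Colour of the vertex 0. -/
def c0 (N : ℕ) : ℕ := N / 1024 % 8
/-- Flag of the vertices 1 2 over the vertex 0. -/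
def fA1 (N : ℕ) : ℕ := N / 8192 % 64 * 2 + N % 2
/-- Flag of the vertices 3 4 over the vertex 0. -/
def fB1 (N : ℕ) : ℕ := N / 524288 % 64 * 2 + N / 128 % 2
/-- Code of the first four vertices. -/
def r4 (N : ℕ) : ℕ := N / 1024 % 4096 * 16 + N % 16
/-- Colour of the vertex 4. -/
def c4 (N : ℕ) : ℕ := N / 4194304 % 8
/-- The bit of the triple 0 3 4. -/
def b7 (N : ℕ) : ℕ := N / 128 % 2

section
variable {b0 b1 b2 b3 b4 b5 b6 b7 b8 b9 k0 k1 k2 k3 k4 : ℕ}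
  (h0 : b0 < 2) (h1 : b1 < 2) (h2 : b2 < 2) (h3 : b3 < 2) (h4 : b4 < 2) (h5 : b5 < 2)
  (h6 : b6 < 2) (h7 : b7 < 2) (h8 : b8 < 2) (h9 : b9 < 2)
  (g0 : k0 < 6) (g1 : k1 < 6) (g2 : k2 < 6) (g3 : k3 < 6) (g4 : k4 < 6)
include h0 h1 h2 h3 h4 h5 h6 h7 h8 h9 g0 g1 g2 g3 g4

theorem r3_pk : r3 (pk b0 b1 b2 b3 b4 b5 b6 b7 b8 b9 k0 k1 k2 k3 k4) =
    (k0 + 8 * k1 + 64 * k2) * 2 + b0 := by
  unfold r3 pk; omega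
theorem fA3_pk : fA3 (pk b0 b1 b2 b3 b4 b5 b6 b7 b8 b9 k0 k1 k2 k3 k4) =
    k3 * 8 + (b1 + 2 * b2 + 4 * b3) := by
  unfold fA3 pk; omega
theorem fB3_pk : fB3 (pk b0 b1 b2 b3 b4 b5 b6 b7 b8 b9 k0 k1 k2 k3 k4) =
    k4 * 8 + (b4 + 2 * b5 + 4 * b6) := by
  unfold fB3 pk; omega
theorem c0_pk : c0 (pk b0 b1 b2 b3 b4 b5 b6 b7 b8 b9 k0 k1 k2 k3 k4) = k0 := by
  unfold c0 pk; omega
theorem fA1_pk : fA1 (pk b0 b1 b2 b3 b4 b5 b6 b7 b8 b9 k0 k1 k2 k3 k4) =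
    (k1 + 8 * k2) * 2 + b0 := by
  unfold fA1 pk; omega
theorem fB1_pk : fB1 (pk b0 b1 b2 b3 b4 b5 b6 b7 b8 b9 k0 k1 k2 k3 k4) =
    (k3 + 8 * k4) * 2 + b7 := by
  unfold fB1 pk; omega
theorem r4_pk : r4 (pk b0 b1 b2 b3 b4 b5 b6 b7 b8 b9 k0 k1 k2 k3 k4) =
    (k0 + 8 * k1 + 64 * k2 + 512 * k3) * 16 + (b0 + 2 * b1 + 4 * b2 + 8 * b3) := by
  unfold r4 pk; omega
theorem c4_pk : c4 (pk b0 b1 b2 b3 b4 b5 b6 b7 b8 b9 k0 k1 k2 k3 k4) = k4 := by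
  unfold c4 pk; omega
end

section
variable {V : Type} (E : V → V → V → Bool) (κ : V → Fin 6)

/-- The number of a coloured sample. -/
def cm (φ : Fin 5 → V) : ℕ :=
  pk (E (φ 0) (φ 1) (φ 2)).toNat (E (φ 0) (φ 1) (φ 3)).toNat (E (φ 0) (φ 2) (φ 3)).toNat
    (E (φ 1) (φ 2) (φ 3)).toNat (E (φ 0) (φ 1) (φ 4)).toNat (E (φ 0) (φ 2) (φ 4)).toNat
    (E (φ 1) (φ 2) (φ 4)).toNat (E (φ 0) (φ 3) (φ 4)).toNat (E (φ 1) (φ 3) (φ 4)).toNat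
    (E (φ 2) (φ 3) (φ 4)).toNat (κ (φ 0)) (κ (φ 1)) (κ (φ 2)) (κ (φ 3)) (κ (φ 4))

/-- Code of a coloured triple. -/
def R3 (x y z : V) : ℕ := ((κ x : ℕ) + 8 * (κ y : ℕ) + 64 * (κ z : ℕ)) * 2 + (E x y z).toNat
/-- Flag of a vertex over three roots. -/
def F3 (x y z u : V) : ℕ :=
  (κ u : ℕ) * 8 + ((E x y u).toNat + 2 * (E x z u).toNat + 4 * (E y z u).toNat)
/-- Flag of two vertices over a root. -/
def F1 (x y z : V) : ℕ := ((κ y : ℕ) + 8 * (κ z : ℕ)) * 2 + (E x y z).toNat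
/-- Code of a coloured quadruple. -/
def R4 (x y z u : V) : ℕ :=
  ((κ x : ℕ) + 8 * (κ y : ℕ) + 64 * (κ z : ℕ) + 512 * (κ u : ℕ)) * 16 + ((E x y z).toNat +
    2 * (E x y u).toNat + 4 * (E x z u).toNat + 8 * (E y z u).toNat)

theorem tn_lt (b : Bool) : b.toNat < 2 := by cases b <;> decide

variable (φ : Fin 5 → V)

theorem cm_r3 : r3 (cm E κ φ) = R3 E κ (φ 0) (φ 1) (φ 2) :=
  r3_pk (tn_lt _) (tn_lt _) (tn_lt _) (tn_lt _) (tn_lt _) (tn_lt _) (tn_lt _) (tn_lt _) (tn_lt _)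
    (tn_lt _) (κ _).2 (κ _).2 (κ _).2 (κ _).2 (κ _).2
theorem cm_fA3 : fA3 (cm E κ φ) = F3 E κ (φ 0) (φ 1) (φ 2) (φ 3) :=
  fA3_pk (tn_lt _) (tn_lt _) (tn_lt _) (tn_lt _) (tn_lt _) (tn_lt _) (tn_lt _) (tn_lt _) (tn_lt _)
    (tn_lt _) (κ _).2 (κ _).2 (κ _).2 (κ _).2 (κ _).2
theorem cm_fB3 : fB3 (cm E κ φ) = F3 E κ (φ 0) (φ 1) (φ 2) (φ 4) :=
  fB3_pk (tn_lt _) (tn_lt _) (tn_lt _) (tn_lt _) (tn_lt _) (tn_lt _) (tn_lt _) (tn_lt _) (tn_lt _)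
    (tn_lt _) (κ _).2 (κ _).2 (κ _).2 (κ _).2 (κ _).2
theorem cm_c0 : c0 (cm E κ φ) = (κ (φ 0) : ℕ) :=
  c0_pk (tn_lt _) (tn_lt _) (tn_lt _) (tn_lt _) (tn_lt _) (tn_lt _) (tn_lt _) (tn_lt _) (tn_lt _)
    (tn_lt _) (κ _).2 (κ _).2 (κ _).2 (κ _).2 (κ _).2
theorem cm_fA1 : fA1 (cm E κ φ) = F1 E κ (φ 0) (φ 1) (φ 2) :=
  fA1_pk (tn_lt _) (tn_lt _) (tn_lt _) (tn_lt _) (tn_lt _) (tn_lt _) (tn_lt _) (tn_lt _) (tn_lt _)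
    (tn_lt _) (κ _).2 (κ _).2 (κ _).2 (κ _).2 (κ _).2
theorem cm_fB1 : fB1 (cm E κ φ) = F1 E κ (φ 0) (φ 3) (φ 4) :=
  fB1_pk (tn_lt _) (tn_lt _) (tn_lt _) (tn_lt _) (tn_lt _) (tn_lt _) (tn_lt _) (tn_lt _) (tn_lt _)
    (tn_lt _) (κ _).2 (κ _).2 (κ _).2 (κ _).2 (κ _).2
theorem cm_r4 : r4 (cm E κ φ) = R4 E κ (φ 0) (φ 1) (φ 2) (φ 3) :=
  r4_pk (tn_lt _) (tn_lt _) (tn_lt _) (tn_lt _) (tn_lt _) (tn_lt _) (tn_lt _) (tn_lt _) (tn_lt _)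
    (tn_lt _) (κ _).2 (κ _).2 (κ _).2 (κ _).2 (κ _).2
theorem cm_c4 : c4 (cm E κ φ) = (κ (φ 4) : ℕ) :=
  c4_pk (tn_lt _) (tn_lt _) (tn_lt _) (tn_lt _) (tn_lt _) (tn_lt _) (tn_lt _) (tn_lt _) (tn_lt _)
    (tn_lt _) (κ _).2 (κ _).2 (κ _).2 (κ _).2 (κ _).2

theorem cm_b7 : b7 (cm E κ φ) = (E (φ 0) (φ 3) (φ 4)).toNat := by
  have h := cm_fB1 E κ φ
  unfold fB1 F1 at h
  unfold b7
  have := tn_lt (E (φ 0) (φ 3) (φ 4))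
  omega

theorem cm_bit0 : cm E κ φ % 2 = (E (φ 0) (φ 1) (φ 2)).toNat := by
  have h := cm_fA1 E κ φ
  unfold fA1 F1 at h
  have := tn_lt (E (φ 0) (φ 1) (φ 2))
  omega

end

end KR
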