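import Pool.Agent.Helper85.KL.R1

set_option autoImplicit false

/-!
Local lemma: the expectations of the rows.
-/

namespace KR

open Finset hiding dens
open KF KB

section
variable {V : Type} [Fintype V]

theorem Ev_le_pos (n : ℕ) {w : V → ℝ} (hw : ∀ v, 0 ≤ w v) {f g : (Fin n → V) → ℝ}
    (h : ∀ φ, (∀ i, 0 < w (φ i)) → f φ ≤ g φ) : Ev n w f ≤ Ev n w g := by
  refine sum_le_sum fun φ _ => ?_
  by_cases h0 : ∀ i, 0 < w (φ i)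
  · exact mul_le_mul_of_nonneg_left (h φ h0) (prod_nonneg fun i _ => hw _)
  · push Not at h0
    obtain ⟨i, hi⟩ := h0
    have : ∏ i, w (φ i) = 0 := prod_eq_zero (mem_univ i) (le_antisymm hi (hw _))
    rw [this, zero_mul, zero_mul]

theorem Ev_nn_pos (n : ℕ) {w : V → ℝ} (hw : ∀ v, 0 ≤ w v) {f : (Fin n → V) → ℝ}
    (h : ∀ φ, (∀ i, 0 < w (φ i)) → 0 ≤ f φ) : 0 ≤ Ev n w f := by
  have h1 := Ev_le_pos n hw (f := fun _ => 0) (g := f) h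
  unfold Ev at h1 ⊢
  simpa using h1

variable (E : V → V → V → Bool) (κ : V → Fin 6) {w : V → ℝ}

theorem R3_app (ρ : Fin 3 → V) (ψ : Fin 2 → V) : r3 (cm E κ (Fin.append ρ ψ)) =
    R3 E κ (ρ 0) (ρ 1) (ρ 2) := cm_r3 E κ (Fin.append ρ ψ)

theorem F3_lt (x y z u : V) : F3 E κ x y z u < 64 := by
  unfold F3
  have h1 := tn_lt (E x y u)
  have h2 := tn_lt (E x z u)
  have h3 := tn_lt (E y z u)
  have h4 := (κ u).2
  omega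

theorem F1_lt (x y z : V) : F1 E κ x y z < 128 := by
  unfold F1
  have h1 := tn_lt (E x y z)
  have h2 := (κ y).2
  have h3 := (κ z).2
  omega

/-- Three roots. -/
theorem evS3 (hw : ∀ v, 0 ≤ w v) {Q : ℕ → ℕ → ℕ → ℝ} (hQ : ∀ r, Psd 64 (Q r)) :
    0 ≤ Ev 5 w (fun φ => Q (r3 (cm E κ φ)) (fA3 (cm E κ φ)) (fB3 (cm E κ φ))) := by
  rw [Ev_append 3 2 w]
  refine Ev_nonneg 3 w hw fun ρ => ?_
  have h := Ev_psd 1 64 w (fun ψ => F3 E κ (ρ 0) (ρ 1) (ρ 2) (ψ 0)) (fun ψ => F3_lt E κ _ _ _ _)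
    (hQ (R3 E κ (ρ 0) (ρ 1) (ρ 2)))
  refine h.trans_eq (Ev_congr 2 w fun ψ => ?_)
  rw [cm_r3, cm_fA3, cm_fB3]
  rfl

/-- One root. -/
theorem evS1 (hw : ∀ v, 0 ≤ w v) {Q : ℕ → ℕ → ℕ → ℝ} (hQ : ∀ r, Psd 128 (Q r)) :
    0 ≤ Ev 5 w (fun φ => Q (c0 (cm E κ φ)) (fA1 (cm E κ φ)) (fB1 (cm E κ φ))) := by
  rw [Ev_append 1 4 w]
  refine Ev_nonneg 1 w hw fun ρ => ?_
  have h := Ev_psd 2 128 w (fun ψ => F1 E κ (ρ 0) (ψ 0) (ψ 1)) (fun ψ => F1_lt E κ _ _ _)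
    (hQ (κ (ρ 0) : ℕ))
  refine h.trans_eq (Ev_congr 4 w fun ψ => ?_)
  rw [cm_c0, cm_fA1, cm_fB1]
  rfl

/-- Degrees. -/
theorem evD (hw : ∀ v, 0 ≤ w v) (h1 : ∑ v, w v = 1) {δ : ℝ} (hδ : 0 ≤ δ)
    (hd : ∀ v, 0 < w v → |deg E w v - 2 / 7| ≤ δ) (K : ℕ → ℝ) :
    Ev 5 w (fun φ => K (r3 (cm E κ φ)) * (7 * ((b7 (cm E κ φ) : ℕ) : ℝ) - 2)) ≤
      7 * δ * Ev 3 w (fun ρ => |K (R3 E κ (ρ 0) (ρ 1) (ρ 2))|) := by
  rw [Ev_append 3 2 w, ← Ev_mul]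
  refine Ev_le_pos 3 hw fun ρ hρ => ?_
  have h2 : Ev 2 w (fun ψ => K (r3 (cm E κ (Fin.append ρ ψ))) *
      (7 * ((b7 (cm E κ (Fin.append ρ ψ)) : ℕ) : ℝ) - 2)) =
      K (R3 E κ (ρ 0) (ρ 1) (ρ 2)) * (7 * deg E w (ρ 0) - 2) := by
    have h3 : ∀ ψ : Fin 2 → V, K (r3 (cm E κ (Fin.append ρ ψ))) *
      (7 * ((b7 (cm E κ (Fin.append ρ ψ)) : ℕ) : ℝ) - 2) =
      K (R3 E κ (ρ 0) (ρ 1) (ρ 2)) * 7 * b2r (E (ρ 0) (ψ 0) (ψ 1)) -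
        K (R3 E κ (ρ 0) (ρ 1) (ρ 2)) * 2 := by
      intro ψ
      rw [cm_r3, cm_b7]
      have e : (((E (Fin.append ρ ψ 0) (Fin.append ρ ψ 3) (Fin.append ρ ψ 4)).toNat : ℕ) : ℝ) =
          b2r (E (ρ 0) (ψ 0) (ψ 1)) := by
        change (((E (ρ 0) (ψ 0) (ψ 1)).toNat : ℕ) : ℝ) = b2r (E (ρ 0) (ψ 0) (ψ 1))
        cases E (ρ 0) (ψ 0) (ψ 1) <;> simp [b2r]
      rw [e]
      change K (R3 E κ (ρ 0) (ρ 1) (ρ 2)) * (7 * b2r (E (ρ 0) (ψ 0) (ψ 1)) - 2) = _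
      ring
    rw [Ev_congr 2 w h3, Ev_sub, Ev_const 2 w h1, Ev_mul, Ev_two w (fun x y => b2r (E (ρ 0) x y))]
    unfold deg
    ring
  rw [h2]
  have h4 := hd (ρ 0) (hρ 0)
  have h5 : K (R3 E κ (ρ 0) (ρ 1) (ρ 2)) * (7 * deg E w (ρ 0) - 2) =
      7 * (K (R3 E κ (ρ 0) (ρ 1) (ρ 2)) * (deg E w (ρ 0) - 2 / 7)) := by ring
  rw [h5, mul_assoc]
  refine mul_le_mul_of_nonneg_left ?_ (by norm_num)
  refine (le_abs_self _).trans ?_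
  rw [abs_mul, mul_comm]
  exact mul_le_mul_of_nonneg_right h4 (abs_nonneg _)

end

/-- Blocks on natural numbers. -/
def dn (a b c : ℕ) : Bool :=
  Nat.testBit 0x3050a14180000030006092824000005060030112200000a0930002112000014281121000c0000182422120c00
    (a + 8 * b + 64 * c)
/-- Inner triples on natural numbers. -/
def nn (a b c : ℕ) : Bool := a == b && b == c

theorem dn_D6 : ∀ i j k : Fin 6, dn i j k = D6 i j k := by decide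
theorem nn_inn : ∀ i j k : Fin 6, nn i j k = inn i j k := by decide

/-- The missing indicator of a code of a coloured triple. -/
def ms3 (r : ℕ) : ℕ := if dn (r / 2 % 8) (r / 16 % 8) (r / 128) && r % 2 == 0 then 1 else 0
/-- The bad indicator of a code of a coloured triple. -/
def bd3 (r : ℕ) : ℕ :=
  if !dn (r / 2 % 8) (r / 16 % 8) (r / 128) && !nn (r / 2 % 8) (r / 16 % 8) (r / 128) &&
    r % 2 == 1 then 1 else 0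

section
variable {V : Type} (E : V → V → V → Bool) (κ : V → Fin 6)

theorem R3_dec (x y z : V) : R3 E κ x y z / 2 % 8 = κ x ∧ R3 E κ x y z / 16 % 8 = κ y ∧
    R3 E κ x y z / 128 = κ z ∧ R3 E κ x y z % 2 = (E x y z).toNat := by
  unfold R3
  have h1 := tn_lt (E x y z)
  have h2 := (κ x).2
  have h3 := (κ y).2
  have h4 := (κ z).2
  refine ⟨?_, ?_, ?_, ?_⟩ <;> omega

/-- The missing indicator. -/
noncomputable def msi (x y z : V) : ℝ := b2r (D6 (κ x) (κ y) (κ z)) * (1 - b2r (E x y z))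
/-- The bad indicator. -/
noncomputable def bdi (x y z : V) : ℝ := b2r (bad (κ x) (κ y) (κ z)) * b2r (E x y z)

theorem ms3_R3 (x y z : V) : ((ms3 (R3 E κ x y z) : ℕ) : ℝ) = msi E κ x y z := by
  obtain ⟨h1, h2, h3, h4⟩ := R3_dec E κ x y z
  unfold ms3 msi
  rw [h1, h2, h3, h4, dn_D6]
  cases D6 (κ x) (κ y) (κ z) <;> cases E x y z <;> simp [b2r]

theorem bd3_R3 (x y z : V) : ((bd3 (R3 E κ x y z) : ℕ) : ℝ) = bdi E κ x y z := by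
  obtain ⟨h1, h2, h3, h4⟩ := R3_dec E κ x y z
  unfold bd3 bdi bad
  rw [h1, h2, h3, h4, dn_D6, nn_inn]
  cases D6 (κ x) (κ y) (κ z) <;> cases inn (κ x) (κ y) (κ z) <;> cases E x y z <;> simp [b2r]

theorem msi_nn (x y z : V) : 0 ≤ msi E κ x y z :=
  mul_nonneg (b2r_nonneg _) (by linarith [b2r_le_one (E x y z)])
theorem bdi_nn (x y z : V) : 0 ≤ bdi E κ x y z := mul_nonneg (b2r_nonneg _) (b2r_nonneg _)

/-- The code of the triple 0 3 4. -/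
theorem cm_034 (φ : Fin 5 → V) : c0 (cm E κ φ) * 2 + fB1 (cm E κ φ) / 2 * 16 +
    fB1 (cm E κ φ) % 2 = R3 E κ (φ 0) (φ 3) (φ 4) := by
  rw [cm_c0, cm_fB1]
  unfold F1 R3
  have h1 := tn_lt (E (φ 0) (φ 3) (φ 4))
  omega

end

section
variable {V : Type} [Fintype V] (E : V → V → V → Bool) (κ : V → Fin 6) {w : V → ℝ}

theorem mu_Ev : mu E w κ = Ev 3 w (fun ρ => msi E κ (ρ 0) (ρ 1) (ρ 2)) := by
  rw [Ev_three w (fun x y z => msi E κ x y z)]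
  unfold mu mm msi
  refine sum_congr rfl fun x _ => ?_
  rw [mul_sum]
  refine sum_congr rfl fun y _ => ?_
  rw [mul_sum]
  exact sum_congr rfl fun z _ => by ring

theorem bet_Ev : bet E w κ = Ev 3 w (fun ρ => bdi E κ (ρ 0) (ρ 1) (ρ 2)) := by
  rw [Ev_three w (fun x y z => bdi E κ x y z)]
  unfold bet bb bdi
  refine sum_congr rfl fun x _ => ?_
  rw [mul_sum]
  refine sum_congr rfl fun y _ => ?_
  rw [mul_sum]
  exact sum_congr rfl fun z _ => by ring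

/-- The missing degree. -/
theorem evK (hw : ∀ v, 0 ≤ w v) (h1 : ∑ v, w v = 1) {A B : ℝ}
    (hm : ∀ v, 0 < w v → B * mm E w κ v ≤ A) {K : ℕ → ℝ} (hK : ∀ r, 0 ≤ K r) :
    0 ≤ Ev 5 w (fun φ => K (r3 (cm E κ φ)) * (A - B * ((ms3 (c0 (cm E κ φ) * 2 +
      fB1 (cm E κ φ) / 2 * 16 + fB1 (cm E κ φ) % 2) : ℕ) : ℝ))) := by
  rw [Ev_append 3 2 w]
  refine Ev_nn_pos 3 hw fun ρ hρ => ?_
  have h3 : ∀ ψ : Fin 2 → V, K (r3 (cm E κ (Fin.append ρ ψ))) *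
      (A - B * ((ms3 (c0 (cm E κ (Fin.append ρ ψ)) * 2 +
      fB1 (cm E κ (Fin.append ρ ψ)) / 2 * 16 + fB1 (cm E κ (Fin.append ρ ψ)) % 2) : ℕ) : ℝ)) =
      K (R3 E κ (ρ 0) (ρ 1) (ρ 2)) * A - K (R3 E κ (ρ 0) (ρ 1) (ρ 2)) * B *
        msi E κ (ρ 0) (ψ 0) (ψ 1) := by
    intro ψ
    rw [cm_034, ms3_R3, cm_r3]
    change K (R3 E κ (ρ 0) (ρ 1) (ρ 2)) * (A - B * msi E κ (ρ 0) (ψ 0) (ψ 1)) = _
    ring
  have h2 : Ev 2 w (fun ψ => K (r3 (cm E κ (Fin.append ρ ψ))) *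
      (A - B * ((ms3 (c0 (cm E κ (Fin.append ρ ψ)) * 2 +
      fB1 (cm E κ (Fin.append ρ ψ)) / 2 * 16 + fB1 (cm E κ (Fin.append ρ ψ)) % 2) : ℕ) : ℝ))) =
      K (R3 E κ (ρ 0) (ρ 1) (ρ 2)) * (A - B * mm E w κ (ρ 0)) := by
    rw [Ev_congr 2 w h3, Ev_sub, Ev_const 2 w h1, Ev_mul, Ev_two w (fun x y => msi E κ (ρ 0) x y)]
    unfold mm msi
    ring
  rw [h2]
  exact mul_nonneg (hK _) (by linarith [hm (ρ 0) (hρ 0)])

/-- Colours of a further vertex. -/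
theorem evI (h1 : ∑ v, w v = 1) (K : ℕ → ℕ → ℝ)
    (h0 : ∀ r, ∑ j : Fin 6, K r j = 0) :
    Ev 5 w (fun φ => K (r4 (cm E κ φ)) (c4 (cm E κ φ))) =
      Ev 4 w (fun ρ => ∑ j : Fin 6, K (R4 E κ (ρ 0) (ρ 1) (ρ 2) (ρ 3)) j * (xs w κ j - 1 / 6)) := by
  rw [Ev_append 4 1 w]
  refine Ev_congr 4 w fun ρ => ?_
  have h2 : ∀ ψ : Fin 1 → V, K (r4 (cm E κ (Fin.append ρ ψ))) (c4 (cm E κ (Fin.append ρ ψ))) =
      K (R4 E κ (ρ 0) (ρ 1) (ρ 2) (ρ 3)) (κ (ψ 0)) := by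
    intro ψ
    rw [cm_r4, cm_c4]
    rfl
  rw [Ev_congr 1 w h2, Ev_one w (fun x => K (R4 E κ (ρ 0) (ρ 1) (ρ 2) (ρ 3)) (κ x)),
    fib (w := w) (κ := κ) (fun i => K (R4 E κ (ρ 0) (ρ 1) (ρ 2) (ρ 3)) i)]
  have h3 : ∑ j : Fin 6, K (R4 E κ (ρ 0) (ρ 1) (ρ 2) (ρ 3)) j * (xs w κ j - 1 / 6) =
      ∑ j : Fin 6, xs w κ j * K (R4 E κ (ρ 0) (ρ 1) (ρ 2) (ρ 3)) j -
        1 / 6 * ∑ j : Fin 6, K (R4 E κ (ρ 0) (ρ 1) (ρ 2) (ρ 3)) j := by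
    rw [mul_sum, ← sum_sub_distrib]
    exact sum_congr rfl fun j _ => by ring
  rw [h3, h0, mul_zero, sub_zero]

end

end KR
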