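import Pool.Agent.Helper85.KL.R2

set_option autoImplicit false

/-!
Local lemma: from a certificate to the inequality between bad and missing triples.
-/

namespace KR

open Finset hiding dens
open KF KB

/-- The automorphisms of the design. -/
def AutD : Finset (Equiv.Perm (Fin 6)) :=
  univ.filter fun a => ∀ i j k, D6 (a i) (a j) (a k) = D6 i j k

theorem one_mem : (1 : Equiv.Perm (Fin 6)) ∈ AutD := by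
  unfold AutD
  simp

/-- A certificate. -/
structure Cert where
  S3 : ℕ → ℕ → ℕ → ℤ
  S1 : ℕ → ℕ → ℕ → ℤ
  D : ℕ → ℤ
  K : ℕ → ℤ
  I : ℕ → ℕ → ℤ
  ND : ℕ → ℤ
  Bf : ℕ → ℕ → ℤ
  NI : ℕ → ℤ
  A : ℤ
  B : ℤ
  P : ℤ
  M : ℤ

namespace Cert

variable (T : Cert)

/-- The integrand. -/
def h (N : ℕ) : ℤ :=
  T.P * (ms3 (r3 N) : ℤ) - T.M * (bd3 (r3 N) : ℤ) -
    T.S3 (r3 N) (fA3 N) (fB3 N) - T.S1 (c0 N) (fA1 N) (fB1 N) -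
    (T.D (r3 N) * (7 * (b7 N : ℤ) - 2) + T.ND (r3 N)) - T.Bf (r3 N) (fB1 N) -
    T.K (r3 N) * (T.A - T.B * (ms3 (c0 N * 2 + fB1 N / 2 * 16 + fB1 N % 2) : ℤ)) -
    (T.I (r4 N) (c4 N) + T.NI (r4 N))

/-- Validity of a certificate. -/
structure Good (δ τ : ℝ) : Prop where
  s3 : ∀ r, Psd 64 (fun a b => (T.S3 r a b : ℝ))
  s1 : ∀ r, Psd 128 (fun a b => (T.S1 r a b : ℝ))
  d : ∀ r, 7 * δ * |(T.D r : ℝ)| ≤ T.ND r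
  k : ∀ r, 0 ≤ T.K r
  i0 : ∀ r, ∑ j : Fin 6, T.I r j = 0
  i : ∀ r, (∑ j : Fin 6, (T.I r j : ℝ) ^ 2) * τ ^ 2 ≤ (T.NI r : ℝ) ^ 2
  ni : ∀ r, 0 ≤ T.NI r

end Cert

section
variable {V : Type} [Fintype V] (E : V → V → V → Bool) (κ : V → Fin 6) {w : V → ℝ}

theorem mu_nn (hw : ∀ v, 0 ≤ w v) : 0 ≤ mu E w κ := by
  rw [mu_Ev]
  exact Ev_nonneg 3 w hw fun ρ => msi_nn E κ _ _ _

theorem bet_nn (hw : ∀ v, 0 ≤ w v) : 0 ≤ bet E w κ := by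
  rw [bet_Ev]
  exact Ev_nonneg 3 w hw fun ρ => bdi_nn E κ _ _ _

/-- One colouring. -/
theorem one_le (hw : ∀ v, 0 ≤ w v) (h1 : ∑ v, w v = 1) (T : Cert) {δ τ : ℝ}
    (hT : T.Good δ τ) (hδ : 0 ≤ δ) (ht : ∑ j : Fin 6, (xs w κ j - 1 / 6) ^ 2 ≤ τ ^ 2)
    (hm : ∀ v, 0 < w v → (T.B : ℝ) * mm E w κ v ≤ T.A)
    (hd : ∀ v, 0 < w v → |deg E w v - 2 / 7| ≤ δ)
    (hB : ∀ r u, 0 < w u → 0 ≤ ∑ y, ∑ z, w y * w z * (T.Bf r (F1 E κ u y z) : ℝ)) :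
    Ev 5 w (fun φ => (T.h (cm E κ φ) : ℝ)) ≤ (T.P : ℝ) * mu E w κ - T.M * bet E w κ := by
  have e0 : Ev 5 w (fun φ => (T.h (cm E κ φ) : ℝ)) =
      Ev 5 w (fun φ => (T.P : ℝ) * msi E κ (φ 0) (φ 1) (φ 2) -
        T.M * bdi E κ (φ 0) (φ 1) (φ 2)) -
      Ev 5 w (fun φ => (T.S3 (r3 (cm E κ φ)) (fA3 (cm E κ φ)) (fB3 (cm E κ φ)) : ℝ)) -
      Ev 5 w (fun φ => (T.S1 (c0 (cm E κ φ)) (fA1 (cm E κ φ)) (fB1 (cm E κ φ)) : ℝ)) +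
      Ev 5 w (fun φ => (-(T.D (r3 (cm E κ φ))) : ℝ) * (7 * ((b7 (cm E κ φ) : ℕ) : ℝ) - 2)) -
      Ev 5 w (fun φ => (T.ND (r3 (cm E κ φ)) : ℝ)) -
      Ev 5 w (fun φ => (T.Bf (r3 (cm E κ φ)) (fB1 (cm E κ φ)) : ℝ)) -
      Ev 5 w (fun φ => (T.K (r3 (cm E κ φ)) : ℝ) * (T.A - T.B * ((ms3 (c0 (cm E κ φ) * 2 +
        fB1 (cm E κ φ) / 2 * 16 + fB1 (cm E κ φ) % 2) : ℕ) : ℝ))) +
      Ev 5 w (fun φ => (-(T.I (r4 (cm E κ φ)) (c4 (cm E κ φ))) : ℝ)) -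
      Ev 5 w (fun φ => (T.NI (r4 (cm E κ φ)) : ℝ)) := by
    rw [← Ev_sub, ← Ev_sub, ← Ev_add, ← Ev_sub, ← Ev_sub, ← Ev_sub, ← Ev_add, ← Ev_sub]
    refine Ev_congr 5 w fun φ => ?_
    rw [← ms3_R3, ← bd3_R3, ← cm_r3]
    unfold Cert.h
    push_cast
    ring
  have a1 : Ev 5 w (fun φ => (T.P : ℝ) * msi E κ (φ 0) (φ 1) (φ 2) -
        T.M * bdi E κ (φ 0) (φ 1) (φ 2)) =
      (T.P : ℝ) * mu E w κ - T.M * bet E w κ := by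
    rw [Ev_append 3 2 w, mu_Ev, bet_Ev]
    have h2 : ∀ ρ : Fin 3 → V, Ev 2 w (fun ψ => (T.P : ℝ) *
        msi E κ (Fin.append ρ ψ 0) (Fin.append ρ ψ 1) (Fin.append ρ ψ 2) -
        T.M * bdi E κ (Fin.append ρ ψ 0) (Fin.append ρ ψ 1) (Fin.append ρ ψ 2)) =
        (T.P : ℝ) * msi E κ (ρ 0) (ρ 1) (ρ 2) - T.M * bdi E κ (ρ 0) (ρ 1) (ρ 2) := by
      intro ρ
      exact Ev_const 2 w h1 ((T.P : ℝ) * msi E κ (ρ 0) (ρ 1) (ρ 2) -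
        T.M * bdi E κ (ρ 0) (ρ 1) (ρ 2))
    rw [Ev_congr 3 w h2, Ev_sub, Ev_mul, Ev_mul]
  have a2 := evS3 E κ hw (Q := fun r a b => (T.S3 r a b : ℝ)) hT.s3
  have a3 := evS1 E κ hw (Q := fun r a b => (T.S1 r a b : ℝ)) hT.s1
  have a4 := evD E κ hw h1 hδ hd (fun r => (-(T.D r) : ℝ))
  have a5 := evK E κ hw h1 hm (K := fun r => (T.K r : ℝ)) (fun r => by exact_mod_cast hT.k r)
  have a6 := evI E κ h1 (fun r j => (-(T.I r j) : ℝ)) (fun r => by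
    rw [sum_neg_distrib]
    have := hT.i0 r
    have h2 : ((∑ j : Fin 6, T.I r j : ℤ) : ℝ) = 0 := by rw [this]; simp
    push_cast at h2
    rw [h2, neg_zero])
  have a7 : Ev 5 w (fun φ => (T.ND (r3 (cm E κ φ)) : ℝ)) =
      Ev 3 w (fun ρ => (T.ND (R3 E κ (ρ 0) (ρ 1) (ρ 2)) : ℝ)) := by
    rw [Ev_append 3 2 w]
    refine Ev_congr 3 w fun ρ => ?_
    have h3 : ∀ ψ : Fin 2 → V, (T.ND (r3 (cm E κ (Fin.append ρ ψ))) : ℝ) =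
        (T.ND (R3 E κ (ρ 0) (ρ 1) (ρ 2)) : ℝ) := fun ψ => by rw [R3_app]
    rw [Ev_congr 2 w h3, Ev_const 2 w h1]
  have a8 : Ev 5 w (fun φ => (T.NI (r4 (cm E κ φ)) : ℝ)) =
      Ev 4 w (fun ρ => (T.NI (R4 E κ (ρ 0) (ρ 1) (ρ 2) (ρ 3)) : ℝ)) := by
    rw [Ev_append 4 1 w]
    refine Ev_congr 4 w fun ρ => ?_
    have h3 : ∀ ψ : Fin 1 → V, (T.NI (r4 (cm E κ (Fin.append ρ ψ))) : ℝ) =
        (T.NI (R4 E κ (ρ 0) (ρ 1) (ρ 2) (ρ 3)) : ℝ) := fun ψ => by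
      rw [cm_r4]
      rfl
    rw [Ev_congr 1 w h3, Ev_const 1 w h1]
  have a9 : 0 ≤ Ev 5 w (fun φ => (T.Bf (r3 (cm E κ φ)) (fB1 (cm E κ φ)) : ℝ)) := by
    rw [Ev_append 3 2 w]
    refine Ev_nn_pos 3 hw fun ρ hρ => ?_
    have h3 : ∀ ψ : Fin 2 → V, (T.Bf (r3 (cm E κ (Fin.append ρ ψ)))
        (fB1 (cm E κ (Fin.append ρ ψ))) : ℝ) =
        (T.Bf (R3 E κ (ρ 0) (ρ 1) (ρ 2)) (F1 E κ (ρ 0) (ψ 0) (ψ 1)) : ℝ) := fun ψ => by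
      rw [R3_app, cm_fB1]
      rfl
    rw [Ev_congr 2 w h3, Ev_two w (fun y z => (T.Bf (R3 E κ (ρ 0) (ρ 1) (ρ 2))
      (F1 E κ (ρ 0) y z) : ℝ))]
    exact hB _ _ (hρ 0)
  have b4 : 7 * δ * Ev 3 w (fun ρ => |(-(T.D (R3 E κ (ρ 0) (ρ 1) (ρ 2))) : ℝ)|) ≤
      Ev 3 w (fun ρ => (T.ND (R3 E κ (ρ 0) (ρ 1) (ρ 2)) : ℝ)) := by
    rw [← Ev_mul]
    refine Ev_mono 3 w hw fun ρ => ?_
    rw [abs_neg]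
    exact hT.d _
  have b6 : Ev 4 w (fun ρ => ∑ j : Fin 6, (-(T.I (R4 E κ (ρ 0) (ρ 1) (ρ 2) (ρ 3)) j) : ℝ) *
      (xs w κ j - 1 / 6)) ≤ Ev 4 w (fun ρ => (T.NI (R4 E κ (ρ 0) (ρ 1) (ρ 2) (ρ 3)) : ℝ)) := by
    refine Ev_mono 4 w hw fun ρ => ?_
    have c2 := sum_mul_sq_le_sq_mul_sq univ
      (fun j : Fin 6 => (-(T.I (R4 E κ (ρ 0) (ρ 1) (ρ 2) (ρ 3)) j) : ℝ))
      (fun j => xs w κ j - 1 / 6)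
    have c3 := hT.i (R4 E κ (ρ 0) (ρ 1) (ρ 2) (ρ 3))
    have c4 : ∑ j : Fin 6, (-(T.I (R4 E κ (ρ 0) (ρ 1) (ρ 2) (ρ 3)) j) : ℝ) ^ 2 =
        ∑ j : Fin 6, ((T.I (R4 E κ (ρ 0) (ρ 1) (ρ 2) (ρ 3)) j) : ℝ) ^ 2 :=
      sum_congr rfl fun j _ => by ring
    rw [c4] at c2
    have c5 : 0 ≤ ((T.NI (R4 E κ (ρ 0) (ρ 1) (ρ 2) (ρ 3)) : ℤ) : ℝ) := by
      exact_mod_cast hT.ni _
    have c6 : (∑ j : Fin 6, (-(T.I (R4 E κ (ρ 0) (ρ 1) (ρ 2) (ρ 3)) j) : ℝ) *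
        (xs w κ j - 1 / 6)) ^ 2 ≤
        ((T.NI (R4 E κ (ρ 0) (ρ 1) (ρ 2) (ρ 3)) : ℤ) : ℝ) ^ 2 :=
      c2.trans ((mul_le_mul_of_nonneg_left ht (sum_nonneg fun j _ => sq_nonneg _)).trans c3)
    exact (abs_le_of_sq_le_sq' c6 c5).2
  rw [e0, a1]
  linarith

end

end KR
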