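import Pool.Agent.Helper85.KL.R3

set_option autoImplicit false

/-!
Local lemma: averaging over the automorphisms and the orderings.
-/

namespace KR

open Finset hiding dens
open KF KB

theorem inn_aut (a : Equiv.Perm (Fin 6)) (i j k : Fin 6) : inn (a i) (a j) (a k) = inn i j k := by
  unfold inn
  simp

section
variable {V : Type} [Fintype V] (E : V → V → V → Bool) (κ : V → Fin 6) {w : V → ℝ}
variable {a : Equiv.Perm (Fin 6)} (ha : a ∈ AutD)

include ha in
theorem D6_aut (i j k : Fin 6) : D6 (a i) (a j) (a k) = D6 i j k := by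
  unfold AutD at ha
  exact (mem_filter.1 ha).2 i j k

include ha in
theorem bad_aut (i j k : Fin 6) : bad (a i) (a j) (a k) = bad i j k := by
  unfold bad
  rw [D6_aut ha, inn_aut]

include ha in
theorem mm_aut (v : V) : mm E w (fun v => a (κ v)) v = mm E w κ v := by
  unfold mm
  exact sum_congr rfl fun y _ => sum_congr rfl fun z _ => by rw [D6_aut ha]

include ha in
theorem mu_aut : mu E w (fun v => a (κ v)) = mu E w κ := by
  unfold mu
  exact sum_congr rfl fun v _ => by rw [mm_aut E κ ha]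

include ha in
theorem bet_aut : bet E w (fun v => a (κ v)) = bet E w κ := by
  unfold bet bb
  exact sum_congr rfl fun v _ => by
    congr 1
    exact sum_congr rfl fun y _ => sum_congr rfl fun z _ => by rw [bad_aut ha]

theorem xs_aut (j : Fin 6) : xs w (fun v => a (κ v)) (a j) = xs w κ j := by
  unfold xs ic
  exact sum_congr rfl fun v _ => by simp

theorem sq_aut : ∑ j : Fin 6, (xs w (fun v => a (κ v)) j - 1 / 6) ^ 2 =
    ∑ j : Fin 6, (xs w κ j - 1 / 6) ^ 2 := by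
  rw [← Equiv.sum_comp a]
  exact sum_congr rfl fun j _ => by rw [xs_aut]

/-- The local lemma. -/
theorem local_lemma (hw : ∀ v, 0 ≤ w v) (h1 : ∑ v, w v = 1) (T : Cert) {δ τ : ℝ}
    (hT : T.Good δ τ) (hδ : 0 ≤ δ)
    (ht : ∑ j : Fin 6, (xs w κ j - 1 / 6) ^ 2 ≤ τ ^ 2)
    (hm : ∀ v, 0 < w v → (T.B : ℝ) * mm E w κ v ≤ T.A)
    (hd : ∀ v, 0 < w v → |deg E w v - 2 / 7| ≤ δ)
    (hB : ∀ a ∈ AutD, ∀ r u, 0 < w u → 0 ≤ ∑ y, ∑ z, w y * w z *
      (T.Bf r (F1 E (fun v => a (κ v)) u y z) : ℝ))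
    (hc : ∀ φ : Fin 5 → V, 0 ≤ ∑ a ∈ AutD, ∑ p : Equiv.Perm (Fin 5),
      T.h (cm E (fun v => a (κ v)) (fun i => φ (p i)))) :
    0 ≤ (T.P : ℝ) * mu E w κ - T.M * bet E w κ := by
  set X := (T.P : ℝ) * mu E w κ - T.M * bet E w κ with hX
  have e1 : 0 ≤ Ev 5 w (fun φ => ∑ a ∈ AutD, ∑ p : Equiv.Perm (Fin 5),
      (T.h (cm E (fun v => a (κ v)) (fun i => φ (p i))) : ℝ)) := by
    refine Ev_nonneg 5 w hw fun φ => ?_
    exact_mod_cast hc φ
  rw [Ev_sum] at e1
  have e2 : ∀ a ∈ AutD, Ev 5 w (fun φ => ∑ p : Equiv.Perm (Fin 5),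
      (T.h (cm E (fun v => a (κ v)) (fun i => φ (p i))) : ℝ)) ≤ 120 * X := by
    intro a ha
    rw [Ev_sum]
    have e3 : ∀ p : Equiv.Perm (Fin 5), Ev 5 w (fun φ =>
        (T.h (cm E (fun v => a (κ v)) (fun i => φ (p i))) : ℝ)) ≤ X := by
      intro p
      rw [Ev_perm p w h1 (fun φ => (T.h (cm E (fun v => a (κ v)) φ) : ℝ))]
      have h2 := one_le E (fun v => a (κ v)) hw h1 T hT hδ
        (by rw [sq_aut κ (a := a)]; exact ht)
        (fun v hv => by rw [mm_aut E κ ha]; exact hm v hv) hd (hB a ha)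
      rw [mu_aut E κ ha, bet_aut E κ ha] at h2
      exact h2
    refine (sum_le_sum fun p _ => e3 p).trans ?_
    rw [sum_const, card_univ, Fintype.card_perm, Fintype.card_fin]
    simp [Nat.factorial]
  have e4 : ∑ a ∈ AutD, Ev 5 w (fun φ => ∑ p : Equiv.Perm (Fin 5),
      (T.h (cm E (fun v => a (κ v)) (fun i => φ (p i))) : ℝ)) ≤ ∑ _a ∈ AutD, 120 * X :=
    sum_le_sum e2
  rw [sum_const, nsmul_eq_mul] at e4
  have e5 : 0 < ((AutD.card : ℕ) : ℝ) := by
    have : 0 < AutD.card := card_pos.2 ⟨1, one_mem⟩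
    exact_mod_cast this
  have e6 : 0 ≤ ((AutD.card : ℕ) : ℝ) * (120 * X) := e1.trans e4
  nlinarith [(mul_nonneg_iff_of_pos_left e5).1 e6]

end

end KR
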