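import Pool.Agent.Helper85.KL.R4
import Pool.Agent.Helper41.KL.Defs
import Pool.Agent.Helper25.K4.Parts

set_option autoImplicit false

/-!
Local lemma: the certificate tables.
-/

namespace KR

open Finset hiding dens
open KF KB

theorem psd_pull {n m : ℕ} {q : ℕ → ℕ → ℝ} (hq : Psd m q) (I : ℕ → ℕ) (P : ℕ → Prop)
    [DecidablePred P] (hI : ∀ a, P a → I a < m) :
    Psd n (fun a b => if P a ∧ P b then q (I a) (I b) else 0) := by
  intro f
  have h := hq (fun i => ∑ a ∈ range n, if P a ∧ I a = i then f a else 0)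
  refine h.trans_eq ?_
  have e1 : ∀ i j, q i j * (∑ a ∈ range n, if P a ∧ I a = i then f a else 0) *
      (∑ b ∈ range n, if P b ∧ I b = j then f b else 0) =
      ∑ a ∈ range n, ∑ b ∈ range n, q i j * ((if P a ∧ I a = i then f a else 0) *
        (if P b ∧ I b = j then f b else 0)) := by
    intro i j
    rw [mul_assoc, sum_mul_sum, mul_sum]
    exact sum_congr rfl fun a _ => by rw [mul_sum]
  simp only [e1]
  have e2 : (∑ i ∈ range m, ∑ j ∈ range m, ∑ a ∈ range n, ∑ b ∈ range n,
      q i j * ((if P a ∧ I a = i then f a else 0) * (if P b ∧ I b = j then f b else 0))) =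
      ∑ a ∈ range n, ∑ b ∈ range n, ∑ i ∈ range m, ∑ j ∈ range m,
      q i j * ((if P a ∧ I a = i then f a else 0) * (if P b ∧ I b = j then f b else 0)) := by
    have g1 : ∀ i ∈ range m, (∑ j ∈ range m, ∑ a ∈ range n, ∑ b ∈ range n,
      q i j * ((if P a ∧ I a = i then f a else 0) * (if P b ∧ I b = j then f b else 0))) =
      ∑ a ∈ range n, ∑ j ∈ range m, ∑ b ∈ range n,
      q i j * ((if P a ∧ I a = i then f a else 0) * (if P b ∧ I b = j then f b else 0)) :=
      fun i _ => sum_comm
    rw [sum_congr rfl g1, sum_comm]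
    refine sum_congr rfl fun a _ => ?_
    rw [sum_comm]
    have g2 : ∀ j ∈ range m, (∑ i ∈ range m, ∑ b ∈ range n,
      q i j * ((if P a ∧ I a = i then f a else 0) * (if P b ∧ I b = j then f b else 0))) =
      ∑ b ∈ range n, ∑ i ∈ range m,
      q i j * ((if P a ∧ I a = i then f a else 0) * (if P b ∧ I b = j then f b else 0)) :=
      fun j _ => sum_comm
    rw [sum_congr rfl g2, sum_comm]
    exact sum_congr rfl fun b _ => sum_comm
  rw [e2]
  refine sum_congr rfl fun a _ => sum_congr rfl fun b _ => ?_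
  by_cases ha : P a
  · by_cases hb : P b
    · rw [if_pos ⟨ha, hb⟩, sum_eq_single (I a), sum_eq_single (I b)]
      · rw [if_pos ⟨ha, rfl⟩, if_pos ⟨hb, rfl⟩]
        ring
      · intro j _ hj
        rw [if_neg (fun h : P b ∧ I b = j => hj h.2.symm)]
        ring
      · intro hj
        exact absurd (mem_range.2 (hI b hb)) hj
      · intro i _ hi
        refine sum_eq_zero fun j _ => ?_
        rw [if_neg (fun h => hi h.2.symm)]
        ring
      · intro hj
        exact absurd (mem_range.2 (hI a ha)) hj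
    · rw [if_neg (fun h => hb h.2), zero_mul, zero_mul]
      refine sum_eq_zero fun i _ => sum_eq_zero fun j _ => ?_
      rw [if_neg (fun h : P b ∧ I b = j => hb h.1)]
      ring
  · rw [if_neg (fun h => ha h.1), zero_mul, zero_mul]
    refine sum_eq_zero fun i _ => sum_eq_zero fun j _ => ?_
    rw [if_neg (fun h : P a ∧ I a = i => ha h.1)]
    ring

/-- Colour type of a code of a coloured triple. -/
def sr (r : ℕ) : ℕ := KL.tc (r / 2 % 8) (r / 16 % 8) (r / 128)
/-- Type of a code of a coloured triple. -/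
def tr (r : ℕ) : ℕ := 2 * sr r + r % 2

/-- Colours of the canonical triples. -/
def cr (s : ℕ) : ℕ := [0, 64, 8, 72, 136, 264].getD s 0

/-- Multipliers of the equations for the colours. -/
noncomputable def imv (C : KL.CT) (s c m j : ℕ) : ℤ :=
  ((C.IM.get (128 * s + 16 * c + m) / 2 ^ (96 * j) % 2 ^ 96 : ℕ) : ℤ) - C.T.OFF

/-- Bounds for the error of the equations for the colours. -/
noncomputable def niv (C : KL.CT) (s c m : ℕ) : ℕ :=
  C.IM.get (128 * s + 16 * c + m) / 2 ^ (96 * 6) % 2 ^ 96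

/-- The data facts of the certificate. -/
structure Ok (C : KL.CT) (DN DD TN TD : ℕ) : Prop where
  psd : ∀ t < 13, KC.PsdT C.T t
  f1 : ∀ b c (e : Bool), b < 6 → c < 6 → KL.wr3 0 b c e = true → C.f1 b c e < C.T.nf 12
  d : ∀ t < 12, 7 * (DN : ℤ) * |C.dm t| ≤ DD * C.nd t
  i0 : ∀ s < 6, ∀ c < 6, ∀ m < 16, ∑ j : Fin 6, imv C s c m j = 0
  i : ∀ s < 6, ∀ c < 6, ∀ m < 16,
    36 * (TN : ℤ) ^ 2 * ∑ j : Fin 6, imv C s c m j ^ 2 ≤ (((TD * niv C s c m) ^ 2 : ℕ) : ℤ)
  dd : 0 < DD
  td : 0 < TD

/-- Squares with three roots. -/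
noncomputable def qS3 (C : KL.CT) (r a b : ℕ) : ℤ :=
  if sr r < 6 ∧ C.fi (tr r) a < C.T.nf (tr r) ∧ C.fi (tr r) b < C.T.nf (tr r) then
    C.T.qi (tr r) (C.fi (tr r) a) (C.fi (tr r) b) else 0

/-- Valid flags with one root. -/
def v1 (a : ℕ) : Bool :=
  decide (a / 2 % 8 < 6) && decide (a / 16 < 6) && KL.wr3 0 (a / 2 % 8) (a / 16) (decide (a % 2 = 1))

/-- Index of a flag with one root. -/
def i1 (C : KL.CT) (a : ℕ) : ℕ := C.f1 (a / 2 % 8) (a / 16) (decide (a % 2 = 1))

/-- Squares with one root. -/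
noncomputable def qS1 (C : KL.CT) (r a b : ℕ) : ℤ :=
  if r = 0 ∧ v1 a = true ∧ v1 b = true then C.T.qi 12 (i1 C a) (i1 C b) else 0

/-- The certificate of the tables. -/
noncomputable def ofCT (C : KL.CT) : Cert where
  S3 := qS3 C
  S1 := qS1 C
  D := fun r => if sr r < 6 then C.dm (tr r) else 0
  K := fun r => if sr r < 6 then (C.km (tr r) : ℤ) else 0
  I := fun r j => if sr (r / 16 % 512 * 2 + r % 2) < 6 ∧ r / 8192 < 6 then
    6 * imv C (sr (r / 16 % 512 * 2 + r % 2)) (r / 8192) (r % 16) j else 0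
  ND := fun r => if sr r < 6 then (C.nd (tr r) : ℤ) else 0
  Bf := fun r a => if sr r < 6 then (C.bc (tr r) : ℤ) -
    C.pb (tr r) (a / 2 % 8) (a / 16) * ((a % 2 : ℕ) : ℤ) else 0
  NI := fun r => if sr (r / 16 % 512 * 2 + r % 2) < 6 ∧ r / 8192 < 6 then
    (niv C (sr (r / 16 % 512 * 2 + r % 2)) (r / 8192) (r % 16) : ℤ) else 0
  A := C.A
  B := C.B
  P := C.P
  M := C.M

theorem nbeq (a b : ℕ) : Nat.beq a b = true ↔ a = b := by rw [Nat.beq_eq]

theorem sr_cases {a b c : ℕ} (h : KL.tc a b c < 6) : a + 8 * b + 64 * c = cr (KL.tc a b c) ∧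
    a < 8 ∧ b < 8 ∧ c < 8 := by
  unfold KL.tc at h ⊢
  by_cases ha : Nat.beq a 0 = true
  · rw [ha] at h ⊢
    have ha' := (nbeq _ _).1 ha
    subst ha'
    by_cases hb : Nat.beq b 0 = true
    · rw [hb] at h ⊢
      have hb' := (nbeq _ _).1 hb
      subst hb'
      by_cases hc : Nat.beq c 0 = true
      · rw [hc]
        have := (nbeq _ _).1 hc
        subst this
        decide
      · rw [Bool.not_eq_true] at hc
        rw [hc] at h ⊢
        by_cases hd : Nat.beq c 1 = true
        · rw [hd]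
          have := (nbeq _ _).1 hd
          subst this
          decide
        · rw [Bool.not_eq_true] at hd
          rw [hd] at h
          simp at h
    · rw [Bool.not_eq_true] at hb
      rw [hb] at h ⊢
      by_cases hb1 : Nat.beq b 1 = true
      · rw [hb1] at h ⊢
        have hb' := (nbeq _ _).1 hb1
        subst hb'
        by_cases hc : Nat.beq c 0 = true
        · rw [hc]
          have := (nbeq _ _).1 hc
          subst this
          decide
        · rw [Bool.not_eq_true] at hc
          rw [hc] at h ⊢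
          by_cases hd : Nat.beq c 1 = true
          · rw [hd]
            have := (nbeq _ _).1 hd
            subst this
            decide
          · rw [Bool.not_eq_true] at hd
            rw [hd] at h ⊢
            by_cases he : Nat.beq c 2 = true
            · rw [he]
              have := (nbeq _ _).1 he
              subst this
              decide
            · rw [Bool.not_eq_true] at he
              rw [he] at h ⊢
              by_cases hf : Nat.beq c 4 = true
              · rw [hf]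
                have := (nbeq _ _).1 hf
                subst this
                decide
              · rw [Bool.not_eq_true] at hf
                rw [hf] at h
                simp at h
      · rw [Bool.not_eq_true] at hb1
        rw [hb1] at h
        simp at h
  · rw [Bool.not_eq_true] at ha
    rw [ha] at h
    simp at h

theorem ofCT_good {C : KL.CT} {DN DD TN TD : ℕ} (h : Ok C DN DD TN TD) :
    (ofCT C).Good ((DN : ℝ) / DD) ((TN : ℝ) / TD) where
  s3 := by
    intro r
    by_cases hr : sr r < 6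
    · have ht : tr r < 13 := by unfold tr; omega
      have h1 : Psd (C.T.nf (tr r)) (fun f g => ((C.T.qi (tr r) f g : ℤ) : ℝ)) := h.psd _ ht
      have h2 := psd_pull (n := 64) h1 (fun a => C.fi (tr r) a)
        (fun a => C.fi (tr r) a < C.T.nf (tr r)) (fun a ha => ha)
      refine fun f => (h2 f).trans_eq (sum_congr rfl fun a _ => sum_congr rfl fun b _ => ?_)
      change (if C.fi (tr r) a < C.T.nf (tr r) ∧ C.fi (tr r) b < C.T.nf (tr r) then
        ((C.T.qi (tr r) (C.fi (tr r) a) (C.fi (tr r) b) : ℤ) : ℝ) else 0) * f a * f b =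
        ((qS3 C r a b : ℤ) : ℝ) * f a * f b
      unfold qS3
      by_cases hab : C.fi (tr r) a < C.T.nf (tr r) ∧ C.fi (tr r) b < C.T.nf (tr r)
      · rw [if_pos hab, if_pos ⟨hr, hab⟩]
      · rw [if_neg hab, if_neg (fun h => hab h.2)]
        simp
    · intro f
      refine (sum_nonneg fun a _ => sum_nonneg fun b _ => ?_)
      change 0 ≤ ((qS3 C r a b : ℤ) : ℝ) * f a * f b
      unfold qS3
      rw [if_neg (fun h => hr h.1)]
      simp
  s1 := by
    intro r
    by_cases hr : r = 0
    · have h1 : Psd (C.T.nf 12) (fun f g => ((C.T.qi 12 f g : ℤ) : ℝ)) := h.psd _ (by norm_num)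
      have h2 := psd_pull (n := 128) h1 (fun a => i1 C a) (fun a => v1 a = true) (fun a ha => by
        unfold v1 at ha
        rw [Bool.and_eq_true, Bool.and_eq_true, decide_eq_true_eq, decide_eq_true_eq] at ha
        exact h.f1 _ _ _ ha.1.1 ha.1.2 ha.2)
      refine fun f => (h2 f).trans_eq (sum_congr rfl fun a _ => sum_congr rfl fun b _ => ?_)
      change (if v1 a = true ∧ v1 b = true then
        ((C.T.qi 12 (i1 C a) (i1 C b) : ℤ) : ℝ) else 0) * f a * f b =
        ((qS1 C r a b : ℤ) : ℝ) * f a * f b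
      unfold qS1
      by_cases hab : v1 a = true ∧ v1 b = true
      · rw [if_pos hab, if_pos ⟨hr, hab⟩]
      · rw [if_neg hab, if_neg (fun h => hab h.2)]
        simp
    · intro f
      refine (sum_nonneg fun a _ => sum_nonneg fun b _ => ?_)
      change 0 ≤ ((qS1 C r a b : ℤ) : ℝ) * f a * f b
      unfold qS1
      rw [if_neg (fun h => hr h.1)]
      simp
  d := by
    intro r
    change 7 * ((DN : ℝ) / DD) * |(((if sr r < 6 then C.dm (tr r) else 0 : ℤ)) : ℝ)| ≤
      ((if sr r < 6 then (C.nd (tr r) : ℤ) else 0 : ℤ) : ℝ)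
    by_cases hr : sr r < 6
    · rw [if_pos hr, if_pos hr]
      have h1 := h.d (tr r) (by unfold tr; omega)
      have h3 : ((7 * (DN : ℤ) * |C.dm (tr r)| : ℤ) : ℝ) ≤ ((DD * C.nd (tr r) : ℤ) : ℝ) := by
        exact_mod_cast h1
      push_cast at h3
      have hp : (0 : ℝ) < DD := by exact_mod_cast h.dd
      push_cast
      rw [show 7 * ((DN : ℝ) / DD) * |(C.dm (tr r) : ℝ)| =
        (7 * (DN : ℝ) * |(C.dm (tr r) : ℝ)|) / DD by ring, div_le_iff₀ hp]
      linarith
    · rw [if_neg hr, if_neg hr]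
      simp
  k := by
    intro r
    change 0 ≤ (if sr r < 6 then (C.km (tr r) : ℤ) else 0)
    split
    · exact Int.natCast_nonneg _
    · exact le_rfl
  i0 := by
    intro r
    change ∑ j : Fin 6, (if sr (r / 16 % 512 * 2 + r % 2) < 6 ∧ r / 8192 < 6 then
      6 * imv C (sr (r / 16 % 512 * 2 + r % 2)) (r / 8192) (r % 16) j else 0) = 0
    by_cases hr : sr (r / 16 % 512 * 2 + r % 2) < 6 ∧ r / 8192 < 6
    · simp only [if_pos hr]
      rw [← mul_sum, h.i0 _ hr.1 _ hr.2 _ (Nat.mod_lt _ (by norm_num)), mul_zero]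
    · simp only [if_neg hr, sum_const_zero]
  i := by
    intro r
    change (∑ j : Fin 6, (((if sr (r / 16 % 512 * 2 + r % 2) < 6 ∧ r / 8192 < 6 then
      6 * imv C (sr (r / 16 % 512 * 2 + r % 2)) (r / 8192) (r % 16) j else 0 : ℤ)) : ℝ) ^ 2) *
      ((TN : ℝ) / TD) ^ 2 ≤ (((if sr (r / 16 % 512 * 2 + r % 2) < 6 ∧ r / 8192 < 6 then
      (niv C (sr (r / 16 % 512 * 2 + r % 2)) (r / 8192) (r % 16) : ℤ) else 0 : ℤ)) : ℝ) ^ 2
    by_cases hr : sr (r / 16 % 512 * 2 + r % 2) < 6 ∧ r / 8192 < 6
    · simp only [if_pos hr]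
      have h1 := h.i _ hr.1 _ hr.2 (r % 16) (Nat.mod_lt _ (by norm_num))
      have h4 : ∑ j : Fin 6, (((6 * imv C (sr (r / 16 % 512 * 2 + r % 2)) (r / 8192) (r % 16) j :
          ℤ)) : ℝ) ^ 2 = ((36 * ∑ j : Fin 6,
            imv C (sr (r / 16 % 512 * 2 + r % 2)) (r / 8192) (r % 16) j ^ 2 : ℤ) : ℝ) := by
        push_cast
        rw [mul_sum]
        exact sum_congr rfl fun j _ => by ring
      rw [h4]
      have h5 : ((36 * (TN : ℤ) ^ 2 * ∑ j : Fin 6,
            imv C (sr (r / 16 % 512 * 2 + r % 2)) (r / 8192) (r % 16) j ^ 2 : ℤ) : ℝ) ≤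
            ((((TD * niv C (sr (r / 16 % 512 * 2 + r % 2)) (r / 8192) (r % 16)) ^ 2 : ℕ) : ℤ) :
              ℝ) := by exact_mod_cast h1
      have hp : (0 : ℝ) < (TD : ℝ) ^ 2 := by
        have : (0 : ℝ) < TD := by exact_mod_cast h.td
        positivity
      rw [div_pow, mul_div_assoc', div_le_iff₀ hp]
      push_cast at h5 ⊢
      rw [mul_pow] at h5
      linarith
    · simp only [if_neg hr]
      simp
  ni := by
    intro r
    change 0 ≤ (if sr (r / 16 % 512 * 2 + r % 2) < 6 ∧ r / 8192 < 6 then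
      (niv C (sr (r / 16 % 512 * 2 + r % 2)) (r / 8192) (r % 16) : ℤ) else 0)
    split
    · exact Int.natCast_nonneg _
    · exact le_rfl

end KR
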