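import Pool.Agent.Helper85.KB.B1
import Pool.Agent.Helper20.KT.X3

set_option autoImplicit false

/-!
Partial partitions: normalised weights on the assigned vertices.
-/

namespace KR

open Finset hiding dens
open KF KB

section
variable {V : Type} [Fintype V] (E : V → V → V → Bool) (w : V → ℝ) (κ : V → Option (Fin 6))

/-- Normalised weights of the assigned vertices. -/
noncomputable def w1 (v : V) : ℝ := w v * b2r (κ v).isSome / (1 - KT.unO w κ)

/-- The classes, with a default value. -/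
def kk (κ : V → Option (Fin 6)) (v : V) : Fin 6 := (κ v).getD 0

theorem dO_pt (a b c : Option (Fin 6)) : b2r a.isSome * b2r b.isSome * b2r c.isSome *
    b2r (D6 (a.getD 0) (b.getD 0) (c.getD 0)) = b2r (KT.dO a b c) := by
  cases a <;> cases b <;> cases c <;> simp [KT.dO, b2r] <;> rfl

theorem bO_pt (a b c : Option (Fin 6)) : b2r a.isSome * b2r b.isSome * b2r c.isSome *
    b2r (bad (a.getD 0) (b.getD 0) (c.getD 0)) = b2r (KT.bO a b c) := by
  cases a <;> cases b <;> cases c <;> simp [KT.bO, bad, inn, b2r]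

theorem nO_pt (a b : Option (Fin 6)) : b2r a.isSome * b2r b.isSome =
    1 - b2r (a.isNone || b.isNone) := by
  cases a <;> cases b <;> simp [b2r]

theorem xO_pt (a : Option (Fin 6)) (i : Fin 6) : b2r a.isSome * b2r (decide (a.getD 0 = i)) =
    b2r (decide (a = some i)) := by
  cases a <;> simp [b2r]

theorem un_pt (a : Option (Fin 6)) : b2r a.isSome = 1 - b2r a.isNone := by
  cases a <;> simp [b2r]

variable {w κ}

theorem w1_nn (hw : ∀ v, 0 ≤ w v) (hs : 0 < 1 - KT.unO w κ) (v : V) : 0 ≤ w1 w κ v :=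
  div_nonneg (mul_nonneg (hw v) (b2r_nonneg _)) hs.le

theorem w1_sum (hw : Wt w) (hs : 0 < 1 - KT.unO w κ) : ∑ v, w1 w κ v = 1 := by
  unfold w1
  rw [← sum_div, div_eq_one_iff_eq hs.ne']
  have h : ∀ v, w v * b2r (κ v).isSome = w v - w v * b2r (κ v).isNone := fun v => by
    rw [un_pt]; ring
  rw [sum_congr rfl fun v _ => h v, sum_sub_distrib, hw.one]
  rfl

theorem w1_pos {v : V} (h : 0 < w1 w κ v) : ∃ i, κ v = some i := by
  cases hv : κ v with
  | none =>
    unfold w1 at h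
    rw [hv] at h
    simp [b2r] at h
  | some i => exact ⟨i, rfl⟩

theorem mu_w1 (hs : 0 < 1 - KT.unO w κ) :
    mu E (w1 w κ) (kk κ) = KT.muO E w κ / (1 - KT.unO w κ) ^ 3 := by
  unfold mu mm KT.muO
  rw [sum_div]
  refine sum_congr rfl fun x _ => ?_
  rw [mul_sum, sum_div]
  refine sum_congr rfl fun y _ => ?_
  rw [mul_sum, sum_div]
  refine sum_congr rfl fun z _ => ?_
  rw [← dO_pt]
  unfold w1 kk
  have := hs.ne'
  field_simp

theorem bet_w1 (hs : 0 < 1 - KT.unO w κ) :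
    bet E (w1 w κ) (kk κ) = KT.beO E w κ / (1 - KT.unO w κ) ^ 3 := by
  unfold bet bb KT.beO
  rw [sum_div]
  refine sum_congr rfl fun x _ => ?_
  rw [mul_sum, sum_div]
  refine sum_congr rfl fun y _ => ?_
  rw [mul_sum, sum_div]
  refine sum_congr rfl fun z _ => ?_
  rw [← bO_pt]
  unfold w1 kk
  have := hs.ne'
  field_simp

theorem mm_w1 (hs : 0 < 1 - KT.unO w κ) {v : V} {i : Fin 6} (hv : κ v = some i) :
    mm E (w1 w κ) (kk κ) v = KT.mo E w κ (some i) v / (1 - KT.unO w κ) ^ 2 := by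
  unfold mm KT.mo
  rw [sum_div]
  refine sum_congr rfl fun y _ => ?_
  rw [sum_div]
  refine sum_congr rfl fun z _ => ?_
  have h := dO_pt (κ v) (κ y) (κ z)
  rw [hv] at h
  rw [← h]
  unfold w1 kk
  rw [hv]
  have := hs.ne'
  simp only [Option.getD_some, Option.isSome_some, b2r_true]
  field_simp

theorem deg_w1 (hs : 0 < 1 - KT.unO w κ) (v : V) :
    deg E (w1 w κ) v = (deg E w v - KT.ro E w κ v) / (1 - KT.unO w κ) ^ 2 := by
  unfold deg KT.ro
  rw [← sum_sub_distrib, sum_div]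
  refine sum_congr rfl fun y _ => ?_
  rw [← sum_sub_distrib, sum_div]
  refine sum_congr rfl fun z _ => ?_
  have h := nO_pt (κ y) (κ z)
  have h2 : b2r ((κ y).isNone || (κ z).isNone) = 1 - b2r (κ y).isSome * b2r (κ z).isSome := by
    rw [h]; ring
  rw [h2]
  unfold w1
  have := hs.ne'
  field_simp
  ring

theorem xs_w1 (i : Fin 6) :
    xs (w1 w κ) (kk κ) i = KT.xsO w κ i / (1 - KT.unO w κ) := by
  unfold xs ic KT.xsO
  rw [sum_div]
  refine sum_congr rfl fun x _ => ?_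
  rw [← xO_pt]
  unfold w1 kk
  ring

theorem t_w1 (hs : 0 < 1 - KT.unO w κ) (i : Fin 6) :
    xs (w1 w κ) (kk κ) i - 1 / 6 = KT.tO w κ i / (1 - KT.unO w κ) := by
  rw [xs_w1, KT.xsO_tO]
  have := hs.ne'
  field_simp
  ring

/-- Degrees of the normalised weights. -/
theorem deg_w1_le (ho : Opt E w) (hs : 0 < 1 - KT.unO w κ) {δ : ℝ}
    (h1 : dens E w ≤ (2 / 7 + δ) * (1 - KT.unO w κ) ^ 2)
    (h2 : (2 / 7 - δ) * (1 - KT.unO w κ) ^ 2 ≤ dens E w * (1 - 4 * KT.unO w κ)) (v : V) :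
    |deg E (w1 w κ) v - 2 / 7| ≤ δ := by
  have hp : 0 < (1 - KT.unO w κ) ^ 2 := pow_pos hs 2
  have g1 := KT.ro_nonneg (κ := κ) E ho.wt.nn v
  have g2 := KT.ro_le' ho κ v
  rw [deg_w1 E hs, ho.reg v, abs_le]
  constructor
  · rw [neg_le_sub_iff_le_add, ← sub_le_iff_le_add, le_div_iff₀ hp]
    linarith
  · rw [sub_le_iff_le_add, div_le_iff₀ hp]
    linarith

end

end KR
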