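import Pool.Agent.Helper85.KL.R6
import Pool.Agent.Helper85.KL.R7

set_option autoImplicit false

/-!
Local lemma for partial partitions.
-/

namespace KR

open Finset hiding dens
open KF KB

section
variable {V : Type} [Fintype V] {E : V → V → V → Bool} {w : V → ℝ} {κ : V → Option (Fin 6)}

/-- The local lemma for partial partitions. -/
theorem part (ho : Opt E w) (hs : 0 < 1 - KT.unO w κ) {C : KL.CT} {DN DD TN TD : ℕ}
    (hC : Ok C DN DD TN TD)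
    (ht : ∑ j : Fin 6, KT.tO w κ j ^ 2 ≤ ((TN : ℝ) / TD * (1 - KT.unO w κ)) ^ 2)
    (hm : ∀ v i, κ v = some i →
      (C.B : ℝ) * KT.mo E w κ (some i) v ≤ C.A * (1 - KT.unO w κ) ^ 2)
    (hd1 : dens E w ≤ (2 / 7 + (DN : ℝ) / DD) * (1 - KT.unO w κ) ^ 2)
    (hd2 : (2 / 7 - (DN : ℝ) / DD) * (1 - KT.unO w κ) ^ 2 ≤ dens E w * (1 - 4 * KT.unO w κ))
    {AL : List (Fin 6 → Fin 6)} (h0 : AL ≠ [])
    (hB : ∀ a ∈ AL, HB C E (w1 w κ) (fun v => a (kk κ v)))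
    (hi : ∀ a ∈ AL, Function.Injective a)
    (ha : ∀ a ∈ AL, ∀ i j k, D6 (a i) (a j) (a k) = D6 i j k)
    (hc : 0 ≤ (AL.map fun a => Ev 5 (w1 w κ)
      (fun φ => (C.G (KL.cm E (fun v => a (kk κ v)) φ) : ℝ))).sum) :
    0 ≤ (C.P : ℝ) * KT.muO E w κ - C.M * KT.beO E w κ := by
  have hp2 : 0 < (1 - KT.unO w κ) ^ 2 := pow_pos hs 2
  have hp3 : 0 < (1 - KT.unO w κ) ^ 3 := pow_pos hs 3
  have h := all E (kk κ) (w1_nn ho.wt.nn hs) (w1_sum ho.wt hs) hC (by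
      simp only [t_w1 hs, div_pow]
      rw [← sum_div, div_le_iff₀ hp2]
      rw [mul_pow, div_pow] at ht
      exact ht)
    (fun v hv => by
      obtain ⟨i, hi⟩ := w1_pos hv
      rw [mm_w1 E hs hi, mul_div_assoc', div_le_iff₀ hp2]
      exact hm v i hi)
    (fun v _ => deg_w1_le E ho hs hd1 hd2 v) h0 hB hi ha hc
  rw [mu_w1 E hs, bet_w1 E hs, mul_div_assoc', mul_div_assoc', ← sub_div,
    le_div_iff₀ hp3, zero_mul] at h
  exact h

end

end KR
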