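import Pool.Agent.Helper85.KL.R5

set_option autoImplicit false

/-!
Local lemma: kernel checks of the data facts.
-/

namespace KR

open Finset hiding dens
open KF KB

/-- Distance of natural numbers. -/
def ab (x y : ℕ) : ℕ := (x - y) + (y - x)

theorem ab_cast (x y : ℕ) : ((ab x y : ℕ) : ℤ) = |(x : ℤ) - y| := by
  unfold ab
  rcases le_total x y with h | h
  · rw [abs_of_nonpos (by omega)]
    omega
  · rw [abs_of_nonneg (by omega)]
    omega

/-- Entries of the table of the equations for the colours. -/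
noncomputable def xv (C : KL.CT) (s c m j : ℕ) : ℕ :=
  C.IM.get (128 * s + 16 * c + m) / 2 ^ (96 * j) % 2 ^ 96

/-- Check of the flags with one root. -/
noncomputable def ckF (C : KL.CT) : Bool :=
  (List.range 6).all fun b => (List.range 6).all fun c =>
    (!(KL.wr3 0 b c true) || Nat.blt (C.f1 b c true) (C.T.nf 12)) &&
    (!(KL.wr3 0 b c false) || Nat.blt (C.f1 b c false) (C.T.nf 12))

/-- Check of the degree equations. -/
noncomputable def ckD (C : KL.CT) (DN DD : ℕ) : Bool :=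
  (List.range 12).all fun t =>
    Nat.ble (7 * DN * ab (C.DM / 2 ^ (96 * t) % 2 ^ 96) C.T.OFF) (DD * C.nd t)

/-- Check of one equation for the colours. -/
noncomputable def ckI1 (C : KL.CT) (TN TD s c m : ℕ) : Bool :=
  Nat.beq (xv C s c m 0 + xv C s c m 1 + xv C s c m 2 + xv C s c m 3 + xv C s c m 4 +
    xv C s c m 5) (6 * C.T.OFF) &&
  Nat.ble (36 * (TN * TN) * (ab (xv C s c m 0) C.T.OFF * ab (xv C s c m 0) C.T.OFF +
    ab (xv C s c m 1) C.T.OFF * ab (xv C s c m 1) C.T.OFF +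
    ab (xv C s c m 2) C.T.OFF * ab (xv C s c m 2) C.T.OFF +
    ab (xv C s c m 3) C.T.OFF * ab (xv C s c m 3) C.T.OFF +
    ab (xv C s c m 4) C.T.OFF * ab (xv C s c m 4) C.T.OFF +
    ab (xv C s c m 5) C.T.OFF * ab (xv C s c m 5) C.T.OFF))
    (TD * niv C s c m * (TD * niv C s c m))

/-- Check of the equations for the colours. -/
noncomputable def ckI (C : KL.CT) (TN TD s : ℕ) : Bool :=
  (List.range 6).all fun c => (List.range 16).all fun m => ckI1 C TN TD s c m

theorem imv_eq (C : KL.CT) (s c m j : ℕ) : imv C s c m j = (xv C s c m j : ℤ) - C.T.OFF := rfl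

theorem imv_sq (C : KL.CT) (s c m j : ℕ) : imv C s c m j ^ 2 =
    ((ab (xv C s c m j) C.T.OFF * ab (xv C s c m j) C.T.OFF : ℕ) : ℤ) := by
  push_cast
  rw [ab_cast, abs_mul_abs_self, imv_eq]
  ring

/-- The data facts from the kernel checks. -/
theorem ok_of_ck {C : KL.CT} {DN DD TN TD : ℕ} (hp : ∀ t < 13, KC.PsdT C.T t)
    (h1 : ckF C = true) (h2 : ckD C DN DD = true) (h3 : ∀ s < 6, ckI C TN TD s = true)
    (hD : 0 < DD) (hT : 0 < TD) : Ok C DN DD TN TD where
  psd := hp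
  f1 := by
    intro b c e hb hc hw
    simp only [ckF, List.all_eq_true, List.mem_range, Bool.and_eq_true, Bool.or_eq_true,
      Bool.not_eq_true'] at h1
    obtain ⟨g1, g2⟩ := h1 b hb c hc
    cases e
    · rcases g2 with g2 | g2
      · rw [hw] at g2
        exact absurd g2 (by simp)
      · exact Nat.blt_eq ▸ g2
    · rcases g1 with g1 | g1
      · rw [hw] at g1
        exact absurd g1 (by simp)
      · exact Nat.blt_eq ▸ g1
  d := by
    intro t ht
    simp only [ckD, List.all_eq_true, List.mem_range] at h2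
    have h := Nat.le_of_ble_eq_true (h2 t ht)
    have h' : ((7 * DN * ab (C.DM / 2 ^ (96 * t) % 2 ^ 96) C.T.OFF : ℕ) : ℤ) ≤
        ((DD * C.nd t : ℕ) : ℤ) := by exact_mod_cast h
    rw [Nat.cast_mul (7 * DN), ab_cast] at h'
    have e : C.dm t = ((C.DM / 2 ^ (96 * t) % 2 ^ 96 : ℕ) : ℤ) - C.T.OFF := rfl
    rw [← e] at h'
    push_cast at h'
    exact h'
  i0 := by
    intro s hs c hc m hm
    have h := h3 s hs
    simp only [ckI, List.all_eq_true, List.mem_range, ckI1, Bool.and_eq_true] at h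
    have h4 := Nat.eq_of_beq_eq_true (h c hc m hm).1
    have h5 : ((xv C s c m 0 + xv C s c m 1 + xv C s c m 2 + xv C s c m 3 + xv C s c m 4 +
      xv C s c m 5 : ℕ) : ℤ) = ((6 * C.T.OFF : ℕ) : ℤ) := by rw [h4]
    simp only [Fin.sum_univ_six, imv_eq]
    push_cast at h5
    change ((xv C s c m 0 : ℕ) : ℤ) - C.T.OFF + ((xv C s c m 1 : ℕ) - C.T.OFF) +
      ((xv C s c m 2 : ℕ) - C.T.OFF) + ((xv C s c m 3 : ℕ) - C.T.OFF) +
      ((xv C s c m 4 : ℕ) - C.T.OFF) + ((xv C s c m 5 : ℕ) - C.T.OFF) = 0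
    linarith
  i := by
    intro s hs c hc m hm
    have h := h3 s hs
    simp only [ckI, List.all_eq_true, List.mem_range, ckI1, Bool.and_eq_true] at h
    have h4 := Nat.le_of_ble_eq_true (h c hc m hm).2
    simp only [Fin.sum_univ_six, imv_sq]
    change 36 * (TN : ℤ) ^ 2 * (((ab (xv C s c m 0) C.T.OFF * ab (xv C s c m 0) C.T.OFF : ℕ) : ℤ) +
      ((ab (xv C s c m 1) C.T.OFF * ab (xv C s c m 1) C.T.OFF : ℕ) : ℤ) +
      ((ab (xv C s c m 2) C.T.OFF * ab (xv C s c m 2) C.T.OFF : ℕ) : ℤ) +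
      ((ab (xv C s c m 3) C.T.OFF * ab (xv C s c m 3) C.T.OFF : ℕ) : ℤ) +
      ((ab (xv C s c m 4) C.T.OFF * ab (xv C s c m 4) C.T.OFF : ℕ) : ℤ) +
      ((ab (xv C s c m 5) C.T.OFF * ab (xv C s c m 5) C.T.OFF : ℕ) : ℤ)) ≤ _
    have h5 : ((36 * (TN * TN) * (ab (xv C s c m 0) C.T.OFF * ab (xv C s c m 0) C.T.OFF +
    ab (xv C s c m 1) C.T.OFF * ab (xv C s c m 1) C.T.OFF +
    ab (xv C s c m 2) C.T.OFF * ab (xv C s c m 2) C.T.OFF +
    ab (xv C s c m 3) C.T.OFF * ab (xv C s c m 3) C.T.OFF +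
    ab (xv C s c m 4) C.T.OFF * ab (xv C s c m 4) C.T.OFF +
    ab (xv C s c m 5) C.T.OFF * ab (xv C s c m 5) C.T.OFF) : ℕ) : ℤ) ≤
    ((TD * niv C s c m * (TD * niv C s c m) : ℕ) : ℤ) := by exact_mod_cast h4
    push_cast at h5 ⊢
    linarith
  dd := hD
  td := hT

end KR
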